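import Pool.Agent.Lib.MP_a739c9_pr.Count

open Set

namespace Pool.Agent.Lib.MP_a739c9_pr

open Pool.Agent.Lib.helper98

variable {ω : V → Prop} {R : Set V} {u : V} {p : ℝ}

/-- the part of the translated region inside a box -/
def Rg (R : Set V) (u : V) (r : ℤ) : Set V := {z | z - u ∈ R} ∩ box u r

/-- two neighbours reach distance `r` in different clusters -/
def AA (R : Set V) (u : V) (r : ℤ) : Set (V → Prop) :=
  {ω | ¬ Conn ω (Rg R u r) u (u + (1, 0)) ∧ (∃ y ∉ box u (r - 1), Conn ω (Rg R u r) u y) ∧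
    ∃ y ∉ box u (r - 1), Conn ω (Rg R u r) (u + (1, 0)) y}

lemma Rg_finite (R : Set V) (u : V) (r : ℤ) : (Rg R u r).Finite :=
  (box_finite u r).subset inter_subset_right

lemma dep_AA (R : Set V) (u : V) (r : ℤ) : Dep (Ed (Rg R u r)) (AA R u r) :=
  fun _ _ h ⟨h1, ⟨y, hy, k⟩, y', hy', k'⟩ => ⟨fun k => h1 (k.congr fun e he => (h e he).symm),
    ⟨y, hy, k.congr h⟩, y', hy', k'.congr h⟩

lemma AA_shift (R : Set V) (u : V) (r : ℤ) : pr p (AA R 0 r) ≤ pr p (AA R u r) := by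
  rw [← pr_preimage_inj (f := fun z : V => z + (u + u)) (add_left_injective _)
    ((dep_AA R 0 r).measurableSet (Ed_finite (Rg_finite _ _ _)))]
  refine pr_mono ?_
  rintro ω ⟨h1, ⟨y, hy, k⟩, y', hy', k'⟩
  have key : ∀ {x y : V}, Conn (fun i => ω (i + (u + u))) (Rg R 0 r) x y →
      Conn ω (Rg R u r) (x + u) (y + u) := fun k =>
    Conn.map (g := fun z => z + u) (f := fun z => z + (u + u))
      (fun a b h => by simp only [adj, Prod.fst_add, Prod.snd_add] at *; omega)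
      (fun a b => by abel) (fun z hz => ⟨by simpa using hz.1, by
        have := hz.2; simp only [mem_box, Prod.fst_add, Prod.snd_add, Prod.fst_zero,
          Prod.snd_zero] at *; omega⟩) k
  have hb : ∀ y, y ∉ box 0 (r - 1) → y + u ∉ box u (r - 1) := fun y hy => by
    simp only [mem_box, Prod.fst_add, Prod.snd_add, Prod.fst_zero, Prod.snd_zero] at *; omega
  refine ⟨fun k => h1 ?_, ⟨_, hb y hy, by simpa using key k⟩, _, hb y' hy', by
    simpa [add_comm] using key k'⟩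
  have := Conn.map (ω := fun i => ω (i + (u + u))) (S := Rg R 0 r) (g := fun z => z - u)
    (f := fun z => z - (u + u))
    (fun a b h => by simp only [adj, Prod.fst_sub, Prod.snd_sub] at *; omega)
    (fun a b => by abel) (fun z hz => ⟨by simpa using hz.1, by
      have := hz.2; simp only [mem_box, Prod.fst_sub, Prod.snd_sub, Prod.fst_zero,
        Prod.snd_zero] at *; omega⟩) (k.mono' fun e he => by simpa using he)
  simpa using this

lemma geom_le {t : ℝ} (h0 : 0 ≤ t) (h1 : t < 1) (n : ℕ) :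
    ∑ j ∈ Finset.range n, t ^ (j + 1) ≤ 1 / (1 - t) := by
  refine le_trans (Finset.sum_le_sum fun j _ => ?_)
    (((summable_geometric_of_lt_one h0 h1).sum_le_tsum (Finset.range n)
      fun j _ => pow_nonneg h0 j).trans (by rw [tsum_geometric_of_lt_one h0 h1, one_div]))
  exact pow_le_pow_of_le_one h0 h1.le (Nat.le_succ j)

lemma DD_card {X Y : Set V} {k : ℤ} {j : ℕ} (h : ω ∈ DD X (box 0 k) Y j) : j ≤ (bx k).card :=
  let ⟨_, h1, h2, _⟩ := h
  h1.trans (Finset.card_le_card fun x hx => (Finite.mem_toFinset _).2 (h2 x hx).1)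

theorem four_arm : ∃ C : ℝ, 0 < C ∧ ∀ (k : ℕ) (r : ℤ), 5 * (k + 1) ≤ r →
    pr (1 / 2) (AA univ 0 r) ≤ C / (k + 1) := by
  classical
  obtain ⟨q, q0, q1, hq⟩ := ann_le
  set t := (1 + q) / 2 with ht
  have t1 : 0 < 1 - t := by linarith
  refine ⟨2 * (1 / (1 - t)), by positivity, fun k r hr => ?_⟩
  let D := DD (box 0 (4 * (k + 1))) (box 0 (k + 1)) (box 0 (4 * (k + 1) - 1))ᶜ
  let δ : ℕ → V → ℝ := fun j e => pr (1 / 2) (ovr {e} False ⁻¹' D (j + 1)) -
    pr (1 / 2) (ovr {e} True ⁻¹' D (j + 1))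
  have hE := Ed_finite (box_finite (0 : V) (4 * (k + 1)))
  have h1 : ∀ x ∈ bx k, pr (1 / 2) (AA univ 0 r) ≤
      ∑ j ∈ Finset.range ((bx (k + 1)).card + 1), δ j (x + (x + (1, 0))) := by
    intro x hx
    have hx : x ∈ box 0 k := (Finite.mem_toFinset _).1 hx
    have a1 : adj x (x + (1, 0)) := by simp [adj]
    have b1 : x ∈ box 0 (k + 1) := box_mono (by omega) hx
    have b2 : x + (1, 0) ∈ box 0 (k + 1) := adj_mem_box (by simpa using hx) a1
    have b3 : box (0 : V) (k + 1) ⊆ box 0 (4 * (k + 1)) := box_mono (by omega)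
    have b4 : box (0 : V) (4 * (k + 1)) ⊆ box x (r - 1) := fun z hz => by
      simp only [mem_box, Prod.fst_zero, Prod.snd_zero] at *; omega
    have b5 : box (0 : V) (4 * (k + 1)) ⊆ Rg univ x r := fun z hz =>
      ⟨trivial, box_mono (by omega) (b4 hz)⟩
    refine (AA_shift univ x r).trans (le_trans (pr_le_sum _ (fun j =>
      (ovr {x + (x + (1, 0))} False ⁻¹' D (j + 1)) \ (ovr {x + (x + (1, 0))} True ⁻¹' D (j + 1)))
      ?_) (Finset.sum_le_sum fun j _ => ?_))
    · rintro ω ⟨k1, ⟨y, hy, k2⟩, y', hy', k3⟩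
      have e : ovr {x + (x + (1, 0))} False ω = ω := by
        funext i
        by_cases hi : i = x + (x + (1, 0))
        · rw [hi, ovr_of_mem (mem_singleton _)]
          exact (eq_false fun h => k1 (Conn.single (b5 (b3 b1)) (b5 (b3 b2)) a1 h)).symm
        · exact ovr_of_notMem (B := {x + (x + (1, 0))}) hi
      have ex : ∀ {a y}, a ∈ box 0 (k + 1) → y ∉ box x (r - 1) → Conn ω (Rg univ x r) a y →
          ∃ y ∈ (box (0 : V) (4 * (k + 1) - 1))ᶜ, Conn ω (box 0 (4 * (k + 1))) a y :=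
        fun ha hy h => by
          obtain ⟨b, c1, c2⟩ := h.exit_box (b3 ha) fun h' => hy (b4 (box_mono (by omega) h'))
          exact ⟨b, c1, c2.mono inter_subset_right⟩
      by_contra! hc
      have key : ∀ j, j ≤ (bx (k + 1)).card + 1 → ω ∈ D (j + 1) := by
        intro j
        induction j with
        | zero => exact fun _ => ⟨{x}, by simp, by simpa using ⟨b1, by simpa using ex b1 hy k2⟩,
            by simp⟩
        | succ j ih =>
          intro hj
          have c1 := hc j (Finset.mem_range.2 hj)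
          rw [mem_sdiff, mem_preimage, e, not_and, not_not] at c1
          have c2 := (DD_ovr a1 b1 b2 (b3 b1) (b3 b2) (c1 (ih (by omega)))).2
          rw [e] at c2
          exact c2 (fun h => k1 (h.mono b5)) (ex b1 hy k2) (ex b2 hy' k3)
      have := DD_card (key _ le_rfl)
      omega
    · have c1 := pr_inter_add_diff (p := 1 / 2) (A := ovr {x + (x + (1, 0))} False ⁻¹' D (j + 1))
        (((dep_DD _ _ _ (j + 1)).ovr {x + (x + (1, 0))} True).measurableSet hE.sdiff :
          MeasurableSet (ovr {x + (x + (1, 0))} True ⁻¹' D (j + 1)))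
      have c2 : ovr {x + (x + (1, 0))} True ⁻¹' D (j + 1) ⊆
          ovr {x + (x + (1, 0))} False ⁻¹' D (j + 1) :=
        fun ω hω => (DD_ovr a1 b1 b2 (b3 b1) (b3 b2) hω).1
      rw [inter_eq_right.2 c2] at c1
      simp only [δ]
      linarith
  have hc : ((bx k).card : ℝ) = (2 * k + 1) ^ 2 := by rw [card_bx]; push_cast; ring
  have h2 : ∀ j, ∑ x ∈ bx k, δ j (x + (x + (1, 0))) ≤ 2 * (2 * k + 1) * t ^ (j + 1) := by
    intro j
    have c1 := bessel hE ((bx k).image fun x => x + (x + (1, 0))) (A := D (j + 1)) (dep_DD _ _ _ _)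
    rw [Finset.sum_image fun a _ b _ h => by
      simp only [Prod.ext_iff, Prod.fst_add, Prod.snd_add] at *; omega] at c1
    have c2 := DD_box (by omega) (hq (k + 1) (by omega)) j
    have c3 := sq_sum_le_card_mul_sum_sq (s := bx k) (f := fun x => δ j (x + (x + (1, 0))) / 2)
    have c4 : q ^ (j + 1) ≤ (t ^ (j + 1)) ^ 2 := by
      rw [← pow_mul, mul_comm, pow_mul]
      exact pow_le_pow_left₀ (by linarith) (by rw [ht]; nlinarith [sq_nonneg (1 - q)]) _
    have c5 : ∑ x ∈ bx k, (δ j (x + (x + (1, 0))) / 2) ^ 2 ≤ (t ^ (j + 1)) ^ 2 := by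
      have := sq_nonneg (pr (1 / 2) (D (j + 1)))
      simp only [δ, D] at *
      linarith
    rw [← Finset.sum_div, hc] at c3
    have c6 := c3.trans (mul_le_mul_of_nonneg_left c5 (by positivity))
    rw [← mul_pow] at c6
    have := (abs_le_of_sq_le_sq' c6 (by positivity)).2
    linarith
  have h3 := Finset.sum_le_sum h1
  rw [Finset.sum_comm, Finset.sum_const, nsmul_eq_mul, hc] at h3
  have h4 := h3.trans (Finset.sum_le_sum fun j _ => h2 j)
  rw [← Finset.mul_sum] at h4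
  have h5 := h4.trans (mul_le_mul_of_nonneg_left (geom_le (by linarith) (by linarith) _)
    (by positivity))
  have h6 := pr_nonneg (1 / 2) (AA univ 0 r)
  have h7 : (0 : ℝ) ≤ k := Nat.cast_nonneg k
  rw [le_div_iff₀ (by positivity)]
  have h8 : (2 * k + 1) * pr (1 / 2) (AA univ 0 r) ≤ 2 * (1 / (1 - t)) :=
    le_of_mul_le_mul_left (a := (2 * k + 1 : ℝ)) (by nlinarith) (by positivity)
  nlinarith

/-- the upper half plane -/
def Hp : Set V := {z | 0 ≤ z.2}

lemma mem_Rg {r : ℤ} {z : V} : z ∈ Rg Hp u r ↔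
    u.1 - r ≤ z.1 ∧ z.1 ≤ u.1 + r ∧ u.2 ≤ z.2 ∧ z.2 ≤ u.2 + r := by
  simp only [Rg, Hp, mem_inter_iff, mem_ofPred_eq, mem_box, Prod.snd_sub]
  omega

/-- the points through which a dual path can pass -/
def LL (ω : V → Prop) (u w : V) (r : ℤ) : Set V :=
  {z | (z.2 = 2 * u.2 - 1 ∧ z.1 ≠ 2 * w.1) ∨ (2 * (u.1 - r) < z.1 ∧ z.1 < 2 * (u.1 + r) ∧
    2 * u.2 ≤ z.2 ∧ z.2 < 2 * (u.2 + r) ∧ ¬ (z.1 % 2 = 0 ∧ z.2 % 2 = 0) ∧
      ((z.1 % 2 = 1 ∧ z.2 % 2 = 1) ∨ ¬ ω z))}

lemma sepH {r : ℤ} {w y f g : V} (hw : w.2 = u.2) (h : Conn ω (Rg Hp u r) w y)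
    (hy : y ∉ box u (r - 1)) (hf : f.2 = 2 * u.2 - 1) (hg : g.2 = 2 * u.2 - 1)
    (h1 : 2 * (u.1 - r) ≤ f.1) (h2 : f.1 < 2 * w.1) (h3 : 2 * w.1 < g.1) (h4 : g.1 ≤ 2 * (u.1 + r))
    (k : Conn full (LL ω u w r) f g) : False := by
  have hw' := mem_Rg.1 h.left_mem
  have hy' := mem_Rg.1 h.right_mem
  rw [mem_box] at hy
  have k1 : Conn full (LL ω u w r) (2 * (u.1 - r), f.2) (2 * (u.1 + r), g.2) :=
    ((seg (S := LL ω u w r) (u := (2 * (u.1 - r), f.2)) (v := f) (a := 2 * (u.1 - r)) (b := f.1)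
      (c := f.2) (d := f.2)
      (fun z hz => Or.inl (by simp only [rect, mem_ofPred_eq] at hz; omega))
      ⟨le_rfl, h1, le_rfl, le_rfl⟩ ⟨h1, le_rfl, le_rfl, le_rfl⟩).trans k).trans
    (seg (u := g) (v := (2 * (u.1 + r), g.2)) (a := g.1) (b := 2 * (u.1 + r)) (c := g.2) (d := g.2)
      (fun z hz => Or.inl (by simp only [rect, mem_ofPred_eq] at hz; omega))
      ⟨le_rfl, h4, le_rfl, le_rfl⟩ ⟨h4, le_rfl, le_rfl, le_rfl⟩)
  let Q : Set V := {z | (2 * (u.1 - r) ≤ z.1 ∧ z.1 ≤ 2 * (u.1 + r)) ∧ z ∉ LL ω u w r}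
  have k2 : Conn full Q (w + w + 0) (y + y + 0) := dbl 0 h (fun a ha => by
      rw [mem_Rg] at ha
      simp only [Q, LL, mem_ofPred_eq, add_zero, Prod.fst_add, Prod.snd_add]
      omega) fun a ha b hb hab ho => by
      rw [mem_Rg] at ha hb
      simp only [Q, LL, adj, mem_ofPred_eq, add_zero, Prod.fst_add, Prod.snd_add, ho, not_true,
        or_false] at *
      omega
  have k3 : Conn full Q (2 * y.1, 2 * (u.2 + r)) (y + y + 0) :=
    seg (a := 2 * y.1) (b := 2 * y.1) (c := 2 * y.2) (d := 2 * (u.2 + r))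
      (fun z hz => ⟨by simp only [rect, mem_ofPred_eq] at hz; omega, fun h => by
        simp only [rect, LL, mem_ofPred_eq] at hz h; omega⟩)
      ⟨le_rfl, le_rfl, by simp only; omega, le_rfl⟩
      (by simp only [rect, mem_ofPred_eq, add_zero, Prod.fst_add, Prod.snd_add]; omega)
  refine no_meet (a := 2 * (u.1 - r)) (b := 2 * (u.1 + r)) (c := 2 * u.2 - 1) (d := 2 * (u.2 + r))
    k1 (fun z hz => by simp only [LL, mem_ofPred_eq] at hz; omega) le_rfl le_rfl
    ((k3.trans k2.symm).tail (b := (2 * w.1, 2 * u.2 - 1)) ?_ trivial ⟨by simp only; omega, fun h => ?_⟩)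
    (fun z hz => hz.1) le_rfl le_rfl fun z hz hz' => hz'.2 hz
  · simp only [adj, add_zero, Prod.fst_add, Prod.snd_add]; omega
  · simp only [LL, mem_ofPred_eq] at h; omega

/-- `x` is the unique lowest point of its cluster, which is large -/
def FF (x : V) (N : ℤ) : Set (V → Prop) :=
  {ζ | (∃ y ∈ (box (0 : V) (N - 1))ᶜ, Conn ζ (box 0 N) x y) ∧
    ∀ z, Conn ζ (box 0 N) x z → z = x ∨ x.2 < z.2}

lemma dep_FF (x : V) (N : ℤ) : Dep (Ed (box 0 N)) (FF x N) :=
  fun _ _ h ⟨⟨y, hy, k⟩, h2⟩ => ⟨⟨y, hy, k.congr h⟩,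
    fun z k => h2 z (k.congr fun e he => (h e he).symm)⟩

lemma FF_of_AA {r N : ℤ} {x : V} (h1 : x.1 = u.1) (h2 : x.2 = u.2 - 1) (hx : x ∈ box 0 (N - 1))
    (hΛ : ∀ z ∈ box (0 : V) N, u.1 - r < z.1 ∧ z.1 + 1 < u.1 + r ∧ z.2 + 1 < u.2 + r)
    (h : ω ∈ AA Hp u r) (o1 : ω (2 * u.1, 2 * u.2 - 1)) (o2 : ω (2 * u.1 + 2, 2 * u.2 - 1))
    (o3 : ω (2 * u.1 + 1, 2 * u.2 - 2)) : dual ω ∈ FF x N := by
  obtain ⟨k1, ⟨y, hy, k2⟩, y', hy', k3⟩ := h
  have hx' : x ∈ box 0 N := box_mono (by omega) hx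
  have low : ∀ z, Conn (dual ω) (box 0 N) x z → z = x ∨ x.2 < z.2 := by
    intro z hz
    by_contra hc
    obtain ⟨a, b, c1, c2, c3, c4, c5⟩ := hz.first_exit' (S := {z | z = x ∨ x.2 < z.2})
      (Or.inl rfl) hc
    have c6 := c1.right_mem.2
    simp only [mem_ofPred_eq, not_or, Prod.ext_iff] at c4 c6
    have c7 := hΛ b c5.left_mem
    have c8 := hΛ x hx'
    have c9 : a ≠ x := by
      rintro rfl
      apply c3
      rcases c2 with ⟨e1, e2 | e2⟩ | ⟨e1, e2 | e2⟩
      · convert o3 using 1; ext <;> simp <;> omega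
      · omega
      · convert o1 using 1; ext <;> simp <;> omega
      · convert o2 using 1; ext <;> simp <;> omega
    have key : ∀ w : V, Conn full (LL ω u w r) (x + x + (1, 1)) (b + b + (1, 1)) := by
      intro w
      have d1 : ∀ s ∈ box 0 N, ∀ s' ∈ box 0 N, adj s s' → dual ω (s + s') →
          2 * u.2 ≤ s.2 + s'.2 + 1 → s + s' + (1, 1) ∈ LL ω u w r := fun s hs s' hs' a1 a2 a3 => by
        have := hΛ s hs
        have := hΛ s' hs'
        refine Or.inr ⟨?_, ?_, ?_, ?_, ?_, Or.inr a2⟩ <;>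
          simp only [adj, Prod.fst_add, Prod.snd_add] at * <;> omega
      have d2 : ∀ s ∈ box 0 N, u.2 - 1 ≤ s.2 → s + s + (1, 1) ∈ LL ω u w r := fun s hs a1 => by
        have := hΛ s hs
        by_cases e : s.2 = u.2 - 1
        · left; simp only [Prod.fst_add, Prod.snd_add]; omega
        · refine Or.inr ⟨?_, ?_, ?_, ?_, ?_, Or.inl ?_⟩ <;>
            simp only [Prod.fst_add, Prod.snd_add] <;> omega
      rw [Ne, Prod.ext_iff] at c9
      refine ((dbl (1, 1) c1 (fun s hs => d2 s hs.1 ?_) fun s hs s' hs' a1 a2 =>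
        d1 s hs.1 s' hs'.1 a1 a2 ?_).tail ?_ trivial (d1 a c1.right_mem.1 b c5.left_mem c2 c3 ?_)).tail
        ?_ trivial (d2 b c5.left_mem ?_)
      · have := hs.2; simp only [mem_ofPred_eq, Prod.ext_iff] at this; omega
      · have := hs.2; have := hs'.2; simp only [adj, mem_ofPred_eq, Prod.ext_iff] at *; omega
      all_goals simp only [adj, Prod.fst_add, Prod.snd_add] at *; omega
    rw [Ne, Prod.ext_iff] at c9
    unfold adj at c2
    rcases lt_or_gt_of_ne (show b.1 ≠ x.1 by omega) with e | e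
    · refine sepH rfl k2 hy ?_ ?_ ?_ ?_ ?_ ?_ (key u).symm <;>
        simp only [Prod.fst_add, Prod.snd_add] <;> omega
    · refine sepH (by simp) k3 hy' ?_ ?_ ?_ ?_ ?_ ?_ (key _) <;>
        simp only [Prod.fst_add, Prod.snd_add] <;> omega
  refine ⟨?_, low⟩
  by_contra! hc
  have hr := hΛ x hx'
  let ξ : V → Prop := fun m => (m ∈ Ed (Rg Hp u r) ∧ ω m) ∨
    (m.2 = 2 * u.2 - 2 ∧ m.1 ≠ 2 * u.1 + 1) ∨ (m.2 = 2 * u.2 - 1 ∧ (m.1 = 2 * u.1 ∨ m.1 = 2 * u.1 + 2))
  have hu : u ∈ Rg Hp u r := k2.left_mem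
  have hE : ∀ {a b : V}, adj a b → a + b ∈ Ed (Rg Hp u r) → a ∈ Rg Hp u r ∧ b ∈ Rg Hp u r := by
    rintro a b hab ⟨c, hc, d, hd, e1, e2⟩
    rcases adj_inj hab e1 e2 with ⟨rfl, rfl⟩ | ⟨rfl, rfl⟩
    · exact ⟨hc, hd⟩
    · exact ⟨hd, hc⟩
  obtain ⟨t, ht, b, hb, k⟩ := duality (ω := ξ) (a := u.1 - r - 1) (b := u.1 + r + 1) (c := u.2 - 1)
    (d := u.2 + r) (by omega) (by omega) (by
      rintro ⟨s, hs, s', hs', k⟩
      have := Conn.closed (T := {z | z.1 = u.1 - r - 1 ∨ (z.2 = u.2 - 1 ∧ z.1 ≤ u.1) ∨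
        Conn ω (Rg Hp u r) u z}) k (Or.inl hs) (by
        rintro a ha b hb hT hab (⟨e1, e2⟩ | e | e)
        · have e3 := hE hab e1
          have e4 := mem_Rg.1 e3.1
          exact Or.inr (Or.inr (((hT.resolve_left (by omega)).resolve_left (by omega)).tail
            hab e2 e3.2))
        · simp only [adj, rect, mem_ofPred_eq, Prod.fst_add, Prod.snd_add] at ha hb hab e
          rcases hT with e' | e' | e'
          · exact Or.inr (Or.inl (by omega))
          · exact Or.inr (Or.inl (by omega))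
          · have := mem_Rg.1 e'.right_mem; omega
        · simp only [adj, rect, mem_ofPred_eq, Prod.fst_add, Prod.snd_add] at ha hb hab e
          rcases hT with e' | e' | e'
          · omega
          · exact Or.inr (Or.inr ((show u = b by ext <;> omega) ▸ Conn.refl hu))
          · have := mem_Rg.1 e'.right_mem
            refine Or.inr (Or.inl ⟨by omega, not_lt.1 fun e'' => k1 ?_⟩)
            rwa [show u + (1, 0) = a by ext <;> simp <;> omega])
      rcases this with e | e | e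
      · simp only [mem_ofPred_eq] at hs'; omega
      · simp only [mem_ofPred_eq] at hs'; omega
      · have := mem_Rg.1 e.right_mem; simp only [mem_ofPred_eq] at hs'; omega)
  have := Conn.closed (T := {z | z.2 = u.2 - 1 - 1 ∨ Conn (dual ω) (box 0 N) x z}) k.symm
    (Or.inl hb) (by
    rintro a - b hb hT hab ho
    simp only [dual, ξ, not_or, not_and, Prod.fst_add, Prod.snd_add] at ho
    simp only [rect, mem_ofPred_eq] at hb
    by_cases e0 : b.2 = u.2 - 1 - 1
    · exact Or.inl e0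
    right
    rcases hT with e | e
    · exact (show x = b by unfold adj at hab; ext <;> omega) ▸ Conn.refl hx'
    have e1 : a ∈ box 0 (N - 1) := not_not.1 fun h => hc a h e
    have e2 := adj_mem_box e1 hab
    have e3 := hΛ a e.right_mem
    have e4 := hΛ b e2
    have e5 := low a e
    rw [Prod.ext_iff] at e5
    refine e.tail hab (ho.1 ?_) e2
    rcases hab with ⟨f1, f2 | f2⟩ | ⟨f1, f2 | f2⟩
    · refine ⟨a, ?_, a + (1, 0), ?_, by simp [adj], by ext <;> simp <;> omega⟩ <;>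
        simp only [mem_Rg, Prod.fst_add, Prod.snd_add] <;> omega
    · refine ⟨b, ?_, b + (1, 0), ?_, by simp [adj], by ext <;> simp <;> omega⟩ <;>
        simp only [mem_Rg, Prod.fst_add, Prod.snd_add] <;> omega
    · refine ⟨a, ?_, a + (0, 1), ?_, by simp [adj], by ext <;> simp <;> omega⟩ <;>
        simp only [mem_Rg, Prod.fst_add, Prod.snd_add] <;> omega
    · refine ⟨b, ?_, b + (0, 1), ?_, by simp [adj], by ext <;> simp <;> omega⟩ <;>
        simp only [mem_Rg, Prod.fst_add, Prod.snd_add] <;> omega)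
  simp only [mem_ofPred_eq] at ht
  rcases this with e | e
  · omega
  · have := hΛ t e.right_mem
    omega

theorem three_arm : ∃ C : ℝ, 0 < C ∧ ∀ (k : ℕ) (r : ℤ), 7 * (k + 1) ≤ r →
    pr (1 / 2) (AA Hp 0 r) ≤ C / (k + 1) ^ 2 := by
  classical
  obtain ⟨q, q0, q1, hq⟩ := ann_le
  have t1 : 0 < 1 - q := by linarith
  refine ⟨8 * (1 / (1 - q)), by positivity, fun k r hr => ?_⟩
  have hE := Ed_finite (box_finite (0 : V) (4 * (k + 1)))
  have h1 : ∀ x ∈ bx (k + 1 : ℕ), 1 / 8 * pr (1 / 2) (AA Hp 0 r) ≤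
      pr (1 / 2) (FF x (4 * (k + 1))) := by
    intro x hx
    have hx : x ∈ box 0 (k + 1 : ℕ) := (Finite.mem_toFinset _).1 hx
    let u := x + (0, 1)
    let s : Finset V := {(2 * u.1, 2 * u.2 - 1), (2 * u.1 + 2, 2 * u.2 - 1),
      (2 * u.1 + 1, 2 * u.2 - 2)}
    have d1 : Dep ((· + (1, 1)) '' Ed (box 0 (4 * (k + 1)))) (dual ⁻¹' FF x (4 * (k + 1))) :=
      fun ω ω' hh h => dep_FF _ _ (dual ω) (dual ω')
        (fun e he => not_congr (hh _ ⟨e, he, rfl⟩)) h
    have c1 := finite_energy (p := 1 / 2) (δ := 1 / 2) (by norm_num) le_rfl (by norm_num)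
      (hE.image _) d1 s True
    rw [pr_dual (by norm_num) (by norm_num) ((dep_FF _ _).measurableSet hE),
      show (1 - 1 / 2 : ℝ) = 1 / 2 by norm_num] at c1
    refine le_trans (mul_le_mul ?_ ((AA_shift Hp u r).trans (pr_mono fun ω hω => ?_))
      (pr_nonneg _ _) (by positivity)) c1
    · exact le_trans (by norm_num) (pow_le_pow_of_le_one (by norm_num) (by norm_num)
        (Finset.card_le_three : s.card ≤ 3))
    · refine FF_of_AA (u := u) (r := r) (by simp [u]) (by simp [u]) (box_mono (by omega) hx)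
        (fun z hz => ?_) (dep_AA _ _ _ _ _ ?_ hω) ?_ ?_ ?_
      · simp only [u, mem_box, Prod.fst_add, Prod.snd_add, Prod.fst_zero, Prod.snd_zero] at *
        omega
      · rintro _ ⟨a, ha, b, hb, -, rfl⟩
        rw [ovr_of_notMem]
        rw [mem_Rg] at ha hb
        simp only [s, Finset.coe_insert, Finset.coe_singleton, mem_insert_iff, mem_singleton_iff,
          Prod.ext_iff, Prod.snd_add]
        omega
      all_goals rw [ovr_of_mem (by simp [s])]; trivial
  have h2 := pr_count (p := 1 / 2) (bx (k + 1 : ℕ)) (Finset.range (bx (k + 1 : ℕ)).card)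
    (fun x => FF x (4 * (k + 1)))
    (fun j => DD (box 0 (4 * (k + 1))) (box 0 (k + 1)) (box 0 (4 * (k + 1) - 1))ᶜ (j + 1))
    (fun x => (dep_FF _ _).measurableSet hE) (fun j => (dep_DD _ _ _ _).measurableSet hE)
    fun ω => by
      rw [← Finset.card_range (Finset.filter _ _).card]
      refine Finset.card_le_card fun j hj => Finset.mem_filter.2 ⟨Finset.mem_range.2
        ((Finset.mem_range.1 hj).trans_le (Finset.card_filter_le _ _)), _, Finset.mem_range.1 hj,
        fun x hx => ⟨(Finite.mem_toFinset _).1 (Finset.mem_filter.1 hx).1,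
          (Finset.mem_filter.1 hx).2.1⟩, fun x hx x' hx' h => ?_⟩
      have a1 := (Finset.mem_filter.1 hx).2.2 x' h
      have a2 := (Finset.mem_filter.1 hx').2.2 x h.symm
      exact a2.resolve_right fun e => a1.elim (fun e' => by rw [e'] at e; omega) (by omega)
  have h3 := (Finset.sum_le_sum h1).trans (h2.trans ((Finset.sum_le_sum fun j _ =>
    DD_box (by omega) (hq (k + 1) (by omega)) j).trans (geom_le (by linarith) q1 _)))
  rw [Finset.sum_const, nsmul_eq_mul, card_bx] at h3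
  push_cast at h3
  have h6 := pr_nonneg (1 / 2) (AA Hp 0 r)
  have h7 : (0 : ℝ) ≤ k := Nat.cast_nonneg k
  rw [le_div_iff₀ (by positivity)]
  nlinarith [mul_nonneg h6 h7, mul_nonneg (mul_nonneg h6 h7) h7]

end Pool.Agent.Lib.MP_a739c9_pr
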