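import Pool.Agent.Lib.MP_a739c9_pr.RSW

open Set

namespace Pool.Agent.Lib.MP_a739c9_pr

open Pool.Agent.Lib.helper98

variable {ω : V → Prop} {R S X Y : Set V} {u v : V} {p : ℝ}

/-- at least `j` different clusters of `R` join `X` to `Y` -/
def DD (R X Y : Set V) (j : ℕ) : Set (V → Prop) :=
  {ω | ∃ s : Finset V, j ≤ s.card ∧ (∀ x ∈ s, x ∈ X ∧ ∃ y ∈ Y, Conn ω R x y) ∧
    ∀ x ∈ s, ∀ x' ∈ s, Conn ω R x x' → x = x'}

lemma dep_DD (R X Y : Set V) (j : ℕ) : Dep (Ed R) (DD R X Y j) :=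
  fun _ _ h ⟨s, h1, h2, h3⟩ => ⟨s, h1, fun x hx => ⟨(h2 x hx).1,
    let ⟨y, hy, k⟩ := (h2 x hx).2; ⟨y, hy, k.congr h⟩⟩,
    fun x hx x' hx' k => h3 x hx x' hx' (k.congr fun e he => (h e he).symm)⟩

lemma DD_step {S : Finset V} {x : V} {j : ℕ} (h : ω ∈ DD S (insert x X) Y (j + 1)) :
    ω ∈ DD ((S : Set V) \ cl S {x} ω) X Y j ∧
      ((∀ y ∈ Y, y ∉ cl S {x} ω) → ω ∈ DD ((S : Set V) \ cl S {x} ω) X Y (j + 1)) := by
  classical
  obtain ⟨s, h1, h2, h3⟩ := h
  have hc : ∀ z, z ∈ cl S {x} ω ↔ Conn ω S x z := fun z => by simp [mem_cl]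
  have key : ∀ i, i ≤ (s.filter fun z => ¬ Conn ω S x z).card →
      ω ∈ DD ((S : Set V) \ cl S {x} ω) X Y i := fun i hi => by
    refine ⟨_, hi, fun z hz => ?_, fun z hz z' hz' k => h3 z (Finset.mem_filter.1 hz).1 z'
      (Finset.mem_filter.1 hz').1 (k.mono sdiff_subset)⟩
    obtain ⟨hz, hz'⟩ := Finset.mem_filter.1 hz
    obtain ⟨k1, y, hy, k2⟩ := h2 z hz
    exact ⟨k1.resolve_left fun e => hz' (e ▸ Conn.refl k2.left_mem), y, hy, k2.reach.mono
      fun a ha => ⟨Conn.right_mem ha, fun e => hz' (((hc a).1 e).trans (Conn.symm ha))⟩⟩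
  have h4 := Finset.card_filter_add_card_filter_not (s := s) fun z => Conn ω S x z
  refine ⟨key j ?_, fun hY => key _ ?_⟩
  · have : (s.filter fun z => Conn ω S x z).card ≤ 1 := Finset.card_le_one.2 fun a ha b hb =>
      h3 a (Finset.mem_filter.1 ha).1 b (Finset.mem_filter.1 hb).1
        ((Finset.mem_filter.1 ha).2.symm.trans (Finset.mem_filter.1 hb).2)
    omega
  · rwa [Finset.filter_true_of_mem fun z hz k =>
      let ⟨_, y, hy, k2⟩ := h2 z hz; hY y hy ((hc y).2 (k.trans k2))]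

lemma DD_le {q : ℝ} {R₀ X₀ : Set V} (hq : pr p (Cr R₀ X₀ Y) ≤ q) (j : ℕ) :
    ∀ (X S : Finset V), (X : Set V) ⊆ X₀ → (S : Set V) ⊆ R₀ →
      pr p (DD S X Y (j + 1)) ≤ q ^ j * pr p (Cr S X Y) := by
  classical
  have hq0 : 0 ≤ q := (pr_nonneg _ _).trans hq
  induction j with
  | zero =>
    intro X S _ _
    rw [pow_zero, one_mul]
    refine pr_mono ?_
    rintro ω ⟨s, h1, h2, -⟩
    obtain ⟨x, hx⟩ := Finset.card_pos.1 h1
    exact ⟨x, (h2 x hx).1, (h2 x hx).2⟩
  | succ j ih =>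
    intro X
    induction X using Finset.induction_on with
    | empty =>
      intro S _ _
      refine le_trans (pr_mono (B := ∅) ?_) (by
        rw [pr_empty]; exact mul_nonneg (pow_nonneg hq0 _) (pr_nonneg _ _))
      rintro ω ⟨s, h1, h2, -⟩
      obtain ⟨x, hx⟩ := Finset.card_pos.1 (lt_of_lt_of_le (Nat.succ_pos _) h1)
      simpa using (h2 x hx).1
    | insert x X _ ihX =>
      intro S hX hS
      rw [Finset.coe_insert] at hX ⊢
      have hX' := (subset_insert x _).trans hX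
      let H : Finset V → Set (V → Prop) := fun C => {ω | cl S {x} ω = C} ∩
        if ∀ y ∈ Y, y ∉ C then Cr ((S : Set V) \ C) X Y else univ
      have fE : ∀ C : Finset V, (Ed ((S : Set V) \ C)).Finite := fun C =>
        Ed_finite S.finite_toSet.sdiff
      have h1 : pr p (DD S (insert x X) Y (j + 1 + 1)) ≤ ∑ C ∈ S.powerset,
          pr p ({ω | cl S {x} ω = C} ∩ if ∀ y ∈ Y, y ∉ C then DD ((S : Set V) \ C) X Y (j + 1 + 1)
            else DD ((S : Set V) \ C) X Y (j + 1)) := by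
        refine pr_le_sum _ _ fun ω hω => ⟨cl S {x} ω,
          Finset.mem_powerset.2 (Finset.filter_subset _ _), rfl, ?_⟩
        split_ifs with h
        · exact (DD_step hω).2 h
        · exact (DD_step hω).1
      refine h1.trans (le_trans ?_ (mul_le_mul_of_nonneg_left (sum_pr_le S.powerset H ?_ ?_ ?_)
        (pow_nonneg hq0 _)))
      · rw [Finset.mul_sum]
        refine Finset.sum_le_sum fun C _ => ?_
        have hSC : ((S \ C : Finset V) : Set V) ⊆ R₀ := by
          rw [Finset.coe_sdiff]; exact sdiff_subset.trans hS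
        simp only [H]
        split_ifs with h
        · rw [pr_inter_of_disjoint (dep_cl S C _) (dep_DD _ _ _ _) (Tch_finite _ _) (fE C)
            (Tch_disjoint _ _ _), pr_inter_of_disjoint (dep_cl S C _) (dep_Cr _ _ _)
            (Tch_finite _ _) (fE C) (Tch_disjoint _ _ _), mul_left_comm]
          exact mul_le_mul_of_nonneg_left (by simpa using ihX (S \ C) hX' hSC) (pr_nonneg _ _)
        · rw [pr_inter_of_disjoint (dep_cl S C _) (dep_DD _ _ _ _) (Tch_finite _ _) (fE C)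
            (Tch_disjoint _ _ _), inter_univ, mul_comm]
          refine mul_le_mul_of_nonneg_right ?_ (pr_nonneg _ _)
          have h2 := ih X (S \ C) hX' hSC
          rw [Finset.coe_sdiff] at h2 hSC
          refine h2.trans (pow_succ q j ▸ mul_le_mul_of_nonneg_left (le_trans (pr_mono ?_) hq)
            (pow_nonneg hq0 _))
          exact fun ω ⟨a, ha, y, hy, k⟩ => ⟨a, hX' ha, y, hy, k.mono hSC⟩
      · refine fun C _ => ((dep_cl S C _).measurableSet (Tch_finite _ _)).inter ?_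
        split_ifs
        · exact measurableSet_Cr S.finite_toSet.sdiff _ _
        · exact MeasurableSet.univ
      · exact fun C _ D _ h => Set.disjoint_left.mpr fun ω h1 h2 => h (h1.1.symm.trans h2.1)
      · rintro C - ω ⟨h2, h3⟩
        split_ifs at h3 with h
        · obtain ⟨a, ha, y, hy, k⟩ := h3
          exact ⟨a, Or.inr ha, y, hy, k.mono sdiff_subset⟩
        · push Not at h
          obtain ⟨y, hy, k⟩ := h
          obtain ⟨_, rfl, k⟩ := mem_cl.1 (h2 ▸ k :)
          exact ⟨_, Or.inl rfl, y, hy, k⟩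

/-- the boxes as finite sets -/
noncomputable def bx (k : ℤ) : Finset V := (box_finite 0 k).toFinset

lemma coe_bx (k : ℤ) : (bx k : Set V) = box 0 k := Finite.coe_toFinset _

lemma card_bx (k : ℕ) : (bx k).card = (2 * k + 1) ^ 2 := by
  have : bx k = Finset.Icc (-(k : ℤ)) k ×ˢ Finset.Icc (-(k : ℤ)) k := by
    ext z; simp [bx, mem_box, and_assoc]
  rw [this, Finset.card_product, Int.card_Icc, pow_two]
  congr 1 <;> omega

lemma DD_box {q : ℝ} {k N : ℤ} (hk : k ≤ N) (hq : pr p (Ann k N) ≤ q) (j : ℕ) :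
    pr p (DD (box 0 N) (box 0 k) (box 0 (N - 1))ᶜ (j + 1)) ≤ q ^ (j + 1) := by
  have h1 : pr p (Cr (box 0 N) (box 0 k) (box 0 (N - 1))ᶜ) ≤ q := by
    refine le_trans (pr_mono ?_) hq
    rintro ω ⟨x, hx, y, hy, h⟩
    by_cases e : x ∈ box 0 (k - 1)
    · obtain ⟨a, b, k1, k2, -, k4, -⟩ := h.symm.first_exit' (S := (box 0 (k - 1))ᶜ)
        (fun h' => hy (box_mono (by omega) h')) (not_not.mpr e)
      exact ⟨a, adj_mem_box (not_not.1 k4) k2.symm, y, hy, k1.symm⟩
    · rcases h.symm.first_exit (S := (box 0 (k - 1))ᶜ) fun h' => hy (box_mono (by omega) h') with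
        k1 | ⟨a, b, k1, k2, -, k4, -⟩
      · exact ⟨x, hx, y, hy, k1.symm⟩
      · exact ⟨a, adj_mem_box (not_not.1 k4) k2.symm, y, hy, k1.symm⟩
  have h2 := DD_le h1 j (bx k) (bx N) (coe_bx k).le (coe_bx N).le
  rw [coe_bx, coe_bx] at h2
  exact h2.trans (pow_succ q j ▸ mul_le_mul_of_nonneg_left h1
    (pow_nonneg ((pr_nonneg _ _).trans h1) _))

lemma bessel {ι : Type} {E : Set ι} (hE : E.Finite) (F : Finset ι) : ∀ {A : Set (ι → Prop)},
    Dep E A → pr (1 / 2) A ^ 2 + ∑ e ∈ F, ((pr (1 / 2) (ovr {e} False ⁻¹' A) -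
      pr (1 / 2) (ovr {e} True ⁻¹' A)) / 2) ^ 2 ≤ pr (1 / 2) A := by
  classical
  induction F using Finset.induction_on with
  | empty =>
    intro A _
    have := pr_nonneg (1 / 2) A
    have := pr_le_one (1 / 2) A
    simp only [Finset.sum_empty]
    nlinarith
  | insert f F hf ih =>
    intro A hA
    have h0 := ih ((hA.ovr {f} False).mono sdiff_subset)
    have h1 := ih ((hA.ovr {f} True).mono sdiff_subset)
    have h2 := pr_rec (p := 1 / 2) (by norm_num) (by norm_num) hA hE f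
    have h3 : ∑ e ∈ F, ((pr (1 / 2) (ovr {e} False ⁻¹' A) -
        pr (1 / 2) (ovr {e} True ⁻¹' A)) / 2) ^ 2 ≤ ∑ e ∈ F,
        (((pr (1 / 2) (ovr {e} False ⁻¹' (ovr {f} False ⁻¹' A)) -
          pr (1 / 2) (ovr {e} True ⁻¹' (ovr {f} False ⁻¹' A))) / 2) ^ 2 +
        ((pr (1 / 2) (ovr {e} False ⁻¹' (ovr {f} True ⁻¹' A)) -
          pr (1 / 2) (ovr {e} True ⁻¹' (ovr {f} True ⁻¹' A))) / 2) ^ 2) / 2 := by
      refine Finset.sum_le_sum fun e he => ?_
      have hd : Disjoint ({e} : Set ι) {f} := disjoint_singleton.2 fun h => hf (h ▸ he)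
      have k : ∀ b, pr (1 / 2) (ovr {e} b ⁻¹' A) =
          1 / 2 * pr (1 / 2) (ovr {e} b ⁻¹' (ovr {f} True ⁻¹' A)) +
          (1 - 1 / 2) * pr (1 / 2) (ovr {e} b ⁻¹' (ovr {f} False ⁻¹' A)) := fun b => by
        rw [pr_rec (p := 1 / 2) (by norm_num) (by norm_num) (hA.ovr {e} b) hE.sdiff f]
        congr 3 <;> ext ω <;> simp only [mem_preimage, ovr_comm hd]
      rw [k, k]
      nlinarith [sq_nonneg (pr (1 / 2) (ovr {e} False ⁻¹' (ovr {f} False ⁻¹' A)) -
          pr (1 / 2) (ovr {e} True ⁻¹' (ovr {f} False ⁻¹' A)) -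
          (pr (1 / 2) (ovr {e} False ⁻¹' (ovr {f} True ⁻¹' A)) -
          pr (1 / 2) (ovr {e} True ⁻¹' (ovr {f} True ⁻¹' A))))]
    rw [← Finset.sum_div, Finset.sum_add_distrib] at h3
    rw [Finset.sum_insert hf]
    rw [h2]
    nlinarith

lemma conn_ovr {a b x y : V} (hab : adj a b) (h : Conn (ovr {a + b} True ω) R x y) :
    Conn (ovr {a + b} False ω) R x y ∨
      ((Conn (ovr {a + b} False ω) R x a ∨ Conn (ovr {a + b} False ω) R x b) ∧
        (Conn (ovr {a + b} False ω) R a y ∨ Conn (ovr {a + b} False ω) R b y)) := by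
  induction h with
  | refl h => exact Or.inl (Conn.refl h)
  | @tail s t k0 k1 k2 k3 ih =>
    by_cases e : s + t = a + b
    · have h1 : Conn (ovr {a + b} False ω) R a t ∨ Conn (ovr {a + b} False ω) R b t := by
        rcases adj_inj k1 hab e with ⟨-, rfl⟩ | ⟨-, rfl⟩
        · exact Or.inr (Conn.refl k3)
        · exact Or.inl (Conn.refl k3)
      refine Or.inr ⟨ih.elim (fun k => ?_) And.left, h1⟩
      rcases adj_inj k1 hab e with ⟨rfl, -⟩ | ⟨rfl, -⟩
      · exact Or.inl k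
      · exact Or.inr k
    · rw [ovr_of_notMem (B := {a + b}) e,
        ← ovr_of_notMem (B := {a + b}) (b := False) (ω := ω) e] at k2
      exact ih.imp (fun k => k.tail k1 k2 k3) fun k =>
        ⟨k.1, k.2.imp (fun k => k.tail k1 k2 k3) fun k => k.tail k1 k2 k3⟩

lemma DD_ovr {a b : V} (hab : adj a b) (ha : a ∈ X) (hb : b ∈ X) (haR : a ∈ R) (hbR : b ∈ R)
    {j : ℕ} (h : ovr {a + b} True ω ∈ DD R X Y j) :
    ovr {a + b} False ω ∈ DD R X Y j ∧
      (¬ Conn (ovr {a + b} False ω) R a b → (∃ y ∈ Y, Conn (ovr {a + b} False ω) R a y) →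
        (∃ y ∈ Y, Conn (ovr {a + b} False ω) R b y) → ovr {a + b} False ω ∈ DD R X Y (j + 1)) := by
  classical
  obtain ⟨s, h1, h2, h3⟩ := h
  have hm : ∀ {x y}, Conn (ovr {a + b} False ω) R x y → Conn (ovr {a + b} True ω) R x y :=
    fun k => k.mono' fun e he => le_ovr_true _ _ e (ovr_false_le _ _ e he)
  have hba : Conn (ovr {a + b} True ω) R b a :=
    (Conn.single haR hbR hab (by rw [ovr_of_mem (mem_singleton _)]; trivial)).symm
  let s0 := s.filter fun z => ¬ Conn (ovr {a + b} True ω) R z a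
  have key : ∀ (t : Finset V) (i : ℕ), i ≤ s0.card + t.card → (∀ x ∈ t, (x = a ∨ x = b) ∧
      ∃ y ∈ Y, Conn (ovr {a + b} False ω) R x y) →
      (∀ x ∈ t, ∀ x' ∈ t, Conn (ovr {a + b} False ω) R x x' → x = x') →
      ovr {a + b} False ω ∈ DD R X Y i := by
    intro t i hi k1 k2
    have k3 : ∀ x ∈ s0, ∀ x' ∈ t, ¬ Conn (ovr {a + b} False ω) R x x' := fun x hx x' hx' k => by
      refine (Finset.mem_filter.1 hx).2 ?_
      rcases (k1 x' hx').1 with rfl | rfl
      · exact hm k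
      · exact (hm k).trans hba
    refine ⟨s0 ∪ t, ?_, fun x hx => ?_, fun x hx x' hx' k => ?_⟩
    · rw [Finset.card_union_of_disjoint (Finset.disjoint_left.2 fun x hx hx' => ?_)]
      · exact hi
      · obtain ⟨-, y, -, k⟩ := k1 x hx'
        exact k3 x hx x hx' (Conn.refl k.left_mem)
    · rcases Finset.mem_union.1 hx with hx | hx
      · obtain ⟨hx, hx'⟩ := Finset.mem_filter.1 hx
        obtain ⟨k4, y, hy, k⟩ := h2 x hx
        exact ⟨k4, y, hy, (conn_ovr hab k).resolve_right fun k =>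
          hx' (k.1.elim hm fun k => (hm k).trans hba)⟩
      · exact ⟨(k1 x hx).1.elim (fun e => e ▸ ha) fun e => e ▸ hb, (k1 x hx).2⟩
    · rcases Finset.mem_union.1 hx with hx | hx <;> rcases Finset.mem_union.1 hx' with hx' | hx'
      · exact h3 x (Finset.mem_filter.1 hx).1 x' (Finset.mem_filter.1 hx').1 (hm k)
      · exact absurd k (k3 x hx x' hx')
      · exact absurd k.symm (k3 x' hx' x hx)
      · exact k2 x hx x' hx' k
  have h4 := Finset.card_filter_add_card_filter_not (s := s)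
    fun z => Conn (ovr {a + b} True ω) R z a
  have h5 : (s.filter fun z => Conn (ovr {a + b} True ω) R z a).card ≤ 1 :=
    Finset.card_le_one.2 fun c hc d hd => h3 c (Finset.mem_filter.1 hc).1 d
      (Finset.mem_filter.1 hd).1 ((Finset.mem_filter.1 hc).2.trans (Finset.mem_filter.1 hd).2.symm)
  refine ⟨?_, fun k1 k2 k3 => key {a, b} _ ?_ ?_ ?_⟩
  · rcases (s.filter fun z => Conn (ovr {a + b} True ω) R z a).eq_empty_or_nonempty with
      e | ⟨x, hx⟩
    · rw [e, Finset.card_empty] at h4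
      exact key ∅ j (by simp only [s0]; omega) (by simp) (by simp)
    · obtain ⟨hx, hx'⟩ := Finset.mem_filter.1 hx
      obtain ⟨-, y, hy, k⟩ := h2 x hx
      have h6 : j ≤ s0.card + 1 := by simp only [s0]; omega
      rcases conn_ovr hab (hx'.symm.trans k) with k | ⟨-, k | k⟩
      · exact key {a} j h6 (by simpa using ⟨y.1, y.2, hy, k⟩) (by simp)
      · exact key {a} j h6 (by simpa using ⟨y.1, y.2, hy, k⟩) (by simp)
      · exact key {b} j h6 (by simpa using ⟨y.1, y.2, hy, k⟩) (by simp)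
  · rw [Finset.card_pair hab.ne]; simp only [s0]; omega
  · intro x hx
    rcases Finset.mem_insert.1 hx with rfl | hx
    · exact ⟨Or.inl rfl, k2⟩
    · rw [Finset.mem_singleton.1 hx]; exact ⟨Or.inr rfl, k3⟩
  · intro x hx x' hx' k
    simp only [Finset.mem_insert, Finset.mem_singleton] at hx hx'
    rcases hx with rfl | rfl <;> rcases hx' with rfl | rfl
    · rfl
    · exact absurd k k1
    · exact absurd k.symm k1
    · rfl

end Pool.Agent.Lib.MP_a739c9_pr
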