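import Mathlib

namespace Pool.Agent.Lib.MP_a739c9_pr

/-- The square lattice: two vertices are adjacent when they are at Euclidean distance one. -/
def lattice : SimpleGraph (ℤ × ℤ) where
  Adj u v := (u.1 - v.1) ^ 2 + (u.2 - v.2) ^ 2 = 1
  symm := ⟨fun u v h => by rw [← h]; ring⟩
  loopless := ⟨fun u h => by simp at h⟩

/-- The graph whose edges are those edges of `ω` both of whose endpoints lie in the closed upper
half plane. -/
def halfGraph (ω : Set (Sym2 (ℤ × ℤ))) : SimpleGraph (ℤ × ℤ) :=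
  SimpleGraph.fromEdgeSet {e | e ∈ ω ∧ ∀ z ∈ e, 0 ≤ z.2}

end Pool.Agent.Lib.MP_a739c9_pr
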