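import Pool.Agent.Lib.MP_a739c9_pr.Tail
import Pool.Agent.Lib.MP_a739c9_pr.Defs

open Set MeasureTheory ProbabilityTheory SimpleGraph

namespace Pool.Agent.Lib.MP_a739c9_pr

open Pool.Agent.Lib.helper98

lemma lattice_adj {u v : V} : lattice.Adj u v ↔ adj u v := by
  change (u.1 - v.1) ^ 2 + (u.2 - v.2) ^ 2 = 1 ↔ _
  unfold adj
  constructor
  · intro h
    obtain ⟨x, hx⟩ : ∃ x, x = u.1 - v.1 := ⟨_, rfl⟩
    obtain ⟨y, hy⟩ : ∃ y, y = u.2 - v.2 := ⟨_, rfl⟩
    rw [← hx, ← hy] at h
    have a1 : -1 ≤ x := by nlinarith [sq_nonneg y]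
    have a2 : x ≤ 1 := by nlinarith [sq_nonneg y]
    have a3 : -1 ≤ y := by nlinarith [sq_nonneg x]
    have a4 : y ≤ 1 := by nlinarith [sq_nonneg x]
    interval_cases x <;> interval_cases y <;> omega
  · rintro (⟨h1, h2 | h2⟩ | ⟨h1, h2 | h2⟩) <;> rw [h1, h2] <;> ring

/-- sum of the endpoints -/
def esum : Sym2 V → V := Sym2.lift ⟨fun a b => a + b, fun _ _ => add_comm _ _⟩

open Classical in
/-- an injective index for unordered pairs -/
noncomputable def idx (e : Sym2 V) : V :=
  if e ∈ lattice.edgeSet then esum e else (2 * ((Encodable.ofCountable (Sym2 V)).encode e : ℕ), 0)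

lemma idx_adj {a b : V} (h : adj a b) : idx s(a, b) = a + b :=
  if_pos (lattice_adj.mpr h)

lemma idx_inj : Function.Injective idx := by
  have key : ∀ a b : V, adj a b → ∀ k : ℤ, a + b ≠ (2 * k, 0) := by
    intro a b h k hk
    simp only [Prod.ext_iff, Prod.fst_add, Prod.snd_add] at hk
    unfold adj at h
    omega
  intro e e'
  induction e using Sym2.ind with | h a b => ?_
  induction e' using Sym2.ind with | h c d => ?_
  intro h
  by_cases h1 : s(a, b) ∈ lattice.edgeSet <;> by_cases h2 : s(c, d) ∈ lattice.edgeSet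
  · have k1 := lattice_adj.mp h1
    have k2 := lattice_adj.mp h2
    rw [idx_adj k1, idx_adj k2] at h
    rcases adj_inj k1 k2 h with ⟨rfl, rfl⟩ | ⟨rfl, rfl⟩
    · rfl
    · exact Sym2.eq_swap
  · rw [idx_adj (lattice_adj.mp h1), idx, if_neg h2] at h
    exact (key _ _ (lattice_adj.mp h1) _ h).elim
  · rw [idx_adj (lattice_adj.mp h2), idx, if_neg h1] at h
    exact (key _ _ (lattice_adj.mp h2) _ h.symm).elim
  · rw [idx, idx, if_neg h1, if_neg h2] at h
    have h3 := congrArg Prod.fst h
    exact (Encodable.ofCountable (Sym2 V)).encode_injective (by simp only at h3; omega)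

/-- the set of open edges -/
def edges (ω : V → Prop) : Set (Sym2 V) := {e | e ∈ lattice.edgeSet ∧ ω (idx e)}

lemma measurable_edges : Measurable edges :=
  MeasurableEquiv.setOfPred.measurable.comp
    (f := fun (ω : V → Prop) e => e ∈ lattice.edgeSet ∧ ω (idx e)) (by fun_prop)

lemma map_edges (p : unitInterval) : (PP V p).map edges = setBernoulli lattice.edgeSet p := by
  have h1 : (PP V p).map (fun ω e => ω (idx e)) = PP (Sym2 V) p :=
    Measure.map_infinitePi_infinitePi_of_inj idx_inj
  have hm : ∀ e : Sym2 V, Measurable fun P : Prop => e ∈ lattice.edgeSet ∧ P :=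
    fun _ => Measurable.of_discrete
  have h2 : (PP (Sym2 V) p).map (fun ω e => e ∈ lattice.edgeSet ∧ ω e) =
      Measure.infinitePi fun e : Sym2 V => unitInterval.toNNReal p • Measure.dirac
        (e ∈ lattice.edgeSet) + unitInterval.toNNReal (unitInterval.symm p) •
          Measure.dirac False := by
    rw [PP, Measure.infinitePi_map_pi _ (f := fun e P => e ∈ lattice.edgeSet ∧ P) hm]
    congr 1
    funext e
    rw [projIcc_val, bernoulliMeasure_def, Measure.map_add _ _ (hm e), Measure.map_smul,
      Measure.map_smul, Measure.map_dirac' (hm e), Measure.map_dirac' (hm e), and_true, and_false]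
  rw [setBernoulli_eq_map, ← h2, ← h1, Measure.map_map (by fun_prop) (by fun_prop),
    Measure.map_map (by fun_prop) (by fun_prop)]
  rfl
/-- the edges of `s` inside `R` -/
def RG (R : Set V) (s : Set (Sym2 V)) : SimpleGraph V := fromEdgeSet {e | e ∈ s ∧ ∀ z ∈ e, z ∈ R}

lemma RG_edges (R : Set V) (ω : V → Prop) : RG R (edges ω) = OG R ω := by
  ext a b
  rw [RG, fromEdgeSet_adj]
  constructor
  · rintro ⟨⟨⟨h1, h2⟩, h3⟩, -⟩
    have k := lattice_adj.mp h1
    exact ⟨k, by rwa [idx_adj k] at h2, h3 a (by simp), h3 b (by simp)⟩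
  · rintro ⟨h1, h2, h3, h4⟩
    exact ⟨⟨⟨lattice_adj.mpr h1, by rwa [idx_adj h1]⟩, by simp [h3, h4]⟩, h1.ne⟩

lemma meas_walk (R : Set V) (n : ℕ) (u v : V) :
    Measurable fun s => ∃ w : (RG R s).Walk u v, w.length = n := by
  induction n generalizing u with
  | zero =>
    have : (fun s => ∃ w : (RG R s).Walk u v, w.length = 0) = fun _ => u = v := by
      ext s
      exact ⟨fun ⟨w, h⟩ => w.eq_of_length_eq_zero h, by rintro rfl; exact ⟨Walk.nil, rfl⟩⟩
    rw [this]
    exact measurable_const
  | succ n ih =>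
    have : (fun s => ∃ w : (RG R s).Walk u v, w.length = n + 1) = fun s => ∃ x,
        ((s(u, x) ∈ s ∧ ∀ z ∈ s(u, x), z ∈ R) ∧ u ≠ x) ∧ ∃ w : (RG R s).Walk x v, w.length = n := by
      ext s
      constructor
      · rintro ⟨w, h⟩
        cases w with
        | nil => simp at h
        | cons h' w => exact ⟨_, h', w, by simpa using h⟩
      · rintro ⟨x, h', w, h⟩
        exact ⟨Walk.cons (show (RG R s).Adj u x from h') w, by simp [h]⟩
    rw [this]
    exact Measurable.exists fun x => (((measurable_set_mem _).and measurable_const).and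
      measurable_const).and (ih x)

lemma meas_dist (R : Set V) (u v : V) : Measurable fun s => (RG R s).dist u v := by
  refine measurable_of_Iic fun n => ?_
  have : (fun s => (RG R s).dist u v) ⁻¹' Iic n = {s | (¬ ∃ m, ∃ w : (RG R s).Walk u v,
      w.length = m) ∨ ∃ m, m ≤ n ∧ ∃ w : (RG R s).Walk u v, w.length = m} := by
    ext s
    constructor
    · refine fun h => or_iff_not_imp_left.2 fun k => ?_
      obtain ⟨_, w, -⟩ := not_not.1 k
      exact ⟨_, h, w.reachable.exists_walk_length_eq_dist⟩
    · rintro (h | ⟨m, h, w, rfl⟩)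
      · exact (dist_eq_zero_of_not_reachable fun ⟨w⟩ => h ⟨_, w, rfl⟩).trans_le n.zero_le
      · exact (dist_le w).trans h
  rw [this]
  exact measurableSet_setOfPred.2 ((Measurable.exists fun m => meas_walk R m u v).not.or
    (Measurable.exists fun m => measurable_const.and (meas_walk R m u v)))

lemma meas_OG (R : Set V) : Measurable fun ω => (OG R ω).dist 0 (1, 0) := by
  simp only [← RG_edges]
  exact (meas_dist R _ _).comp measurable_edges

lemma transfer (p : unitInterval) (hp : (p : ℝ) = 1 / 2) (R : Set V) (α : ℝ) (A : Set (Set (Sym2 V)))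
    (h : Integrable (fun ω => ((OG R ω).dist 0 (1, 0) : ℝ) ^ α) (PP V (1 / 2))) :
    Integrable (fun s => ((RG R s).dist (0, 0) (1, 0) : ℝ) ^ α)
      (setBernoulli lattice.edgeSet p)[|A] := by
  have hm : Measurable fun s => ((RG R s).dist (0, 0) (1, 0) : ℝ) ^ α :=
    (Measurable.of_discrete.comp (meas_dist R _ _)).pow_const α
  have h1 : Integrable (fun s => ((RG R s).dist (0, 0) (1, 0) : ℝ) ^ α)
      (setBernoulli lattice.edgeSet p) := by
    rw [← map_edges, integrable_map_measure hm.aestronglyMeasurable measurable_edges.aemeasurable,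
      hp]
    simp only [Function.comp_def, RG_edges]
    exact h
  by_cases e : setBernoulli lattice.edgeSet p A = 0
  · rw [ProbabilityTheory.cond, Measure.restrict_eq_zero.2 e, smul_zero]
    exact integrable_zero_measure
  · exact h1.restrict.smul_measure (ENNReal.inv_ne_top.2 e)

end Pool.Agent.Lib.MP_a739c9_pr
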