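import Pool.Agent.Lib.MP_a739c9_pr.Topo

open Set

namespace Pool.Agent.Lib.MP_a739c9_pr

open Pool.Agent.Lib.helper98

variable {ω : V → Prop} {R S : Set V} {u v : V}

/-- reflection in the vertical axis -/
def σ (z : V) : V := (-z.1, z.2)

lemma σσ (z : V) : σ (σ z) = z := by simp [σ]

lemma σ_add (a b : V) : σ (a + b) = σ a + σ b := by ext <;> simp [σ]; ring

lemma σ_adj {a b : V} (h : adj a b) : adj (σ a) (σ b) := by
  simp only [adj, σ] at *; omega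

lemma conn_σ (h : Conn ω R u v) (hR : ∀ z ∈ R, σ z ∈ S) :
    Conn (fun i => ω (σ i)) S (σ u) (σ v) :=
  Conn.map (fun _ _ => σ_adj) σ_add hR (h.mono' fun e he => by rwa [σσ])

/-- the faces of the square, together with one row below and one row above -/
noncomputable def Φ (n : ℤ) : Finset V := (rect_finite 0 (n - 1) (-1) n).toFinset

lemma mem_Φ {n : ℤ} {z : V} : z ∈ Φ n ↔ 0 ≤ z.1 ∧ z.1 ≤ n - 1 ∧ -1 ≤ z.2 ∧ z.2 ≤ n := by
  simp [Φ, rect]

/-- the edges on the boundary of the set `C` of faces -/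
def η (n : ℤ) (C : Finset V) : V → Prop :=
  fun m => ∃ x ∈ C, ∃ y ∈ Φ n, y ∉ C ∧ adj x y ∧ m = x + y + (1, 1)

/-- the edges which touch the set `C` of faces -/
def EC (n : ℤ) (C : Finset V) : Set V := {m | ∃ x ∈ C, ∃ y ∈ Φ n, adj x y ∧ m = x + y + (1, 1)}

/-- the endpoints of the edges which touch `C` -/
def WC (n : ℤ) (C : Finset V) : Set V := {a | ∃ a', adj a a' ∧ a + a' ∈ EC n C}

lemma sepR {n m : ℤ} (hm : n ≤ m) {ζ : V → Prop} {C : Finset V}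
    (hC : cl (Φ n) {z | z.2 = -1} ζ = C) (hu : u.1 = 0) (hv : v.1 = n)
    (h : Conn (η n C) (rect 0 n 0 n) u v) {t a : V} (ht : t.2 = m)
    (hta : Conn ω R t a) (hR : ∀ z ∈ R, z ∈ rect (-n) n 0 m ∧
      ¬ Conn (η n C) (rect 0 n 0 n) u z ∧ ¬ Conn (η n C) (rect 0 n 0 n) u (σ z))
    (ha : a.2 = 0 ∨ a ∈ WC n C) : False := by
  let M := {z | Conn (η n C) (rect 0 n 0 n) u z}
  let D : Set V := {z | (∃ a ∈ M, z = a + a + 0) ∨
    ∃ a ∈ M, ∃ b ∈ M, adj a b ∧ η n C (a + b) ∧ z = a + b + 0}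
  have hM : ∀ z ∈ M, 0 ≤ z.1 ∧ z.1 ≤ n ∧ 0 ≤ z.2 ∧ z.2 ≤ n := fun z hz => Conn.right_mem hz
  have hD : ∀ z ∈ D, 0 ≤ z.1 ∧ 0 ≤ z.2 ∧ z.2 ≤ 2 * n := by
    rintro z (⟨a, ha, rfl⟩ | ⟨a, ha, b, hb, -, -, rfl⟩)
    · have := hM a ha; simp only [add_zero, Prod.fst_add, Prod.snd_add]; omega
    · have := hM a ha; have := hM b hb; simp only [add_zero, Prod.fst_add, Prod.snd_add]; omega
  have k1 : Conn full D (u + u + 0) (v + v + 0) := dbl 0 h.reach (fun a ha => Or.inl ⟨a, ha, rfl⟩)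
    fun a ha b hb h1 h2 => Or.inr ⟨a, ha, b, hb, h1, h2, rfl⟩
  have k2 : Conn full {z | z ∈ D ∨ σ z ∈ D} (σ (v + v + 0)) (v + v + 0) := by
    have k3 := (conn_σ (S := {z | z ∈ D ∨ σ z ∈ D}) k1 fun z hz => Or.inr (by rwa [σσ])).symm
    rw [show σ (u + u + 0) = u + u + 0 by ext <;> simp [σ, hu]] at k3
    exact k3.trans (k1.mono fun z hz => Or.inl hz)
  have hA : ∀ s s' : V, s ∉ M → (s' = s ∨ adj s s') → s + s' ∉ D := by
    rintro s s' hs h' (⟨a, ha, e⟩ | ⟨a, ha, b, hb, h1, -, e⟩) <;> rw [add_zero] at e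
    · refine hs ((?_ : a = s) ▸ ha)
      simp only [adj, Prod.ext_iff, Prod.fst_add, Prod.snd_add] at *; omega
    · rcases h' with rfl | h'
      · simp only [adj, Prod.ext_iff, Prod.fst_add, Prod.snd_add] at *; omega
      · rcases adj_inj h' h1 e with ⟨rfl, rfl⟩ | ⟨rfl, rfl⟩
        · exact hs ha
        · exact hs hb
  let Q : Set V := {z | (-(2 * n) ≤ z.1 ∧ z.1 ≤ 2 * n) ∧ z ∉ D ∧ σ z ∉ D}
  have hB : ∀ s ∈ R, ∀ s' ∈ R, (s' = s ∨ adj s s') → s + s' + 0 ∈ Q := fun s hs s' hs' h' => by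
    rw [add_zero]
    refine ⟨?_, hA s s' (hR s hs).2.1 h', σ_add s s' ▸ hA _ _ (hR s hs).2.2
      (h'.imp (fun e => by rw [e]) σ_adj)⟩
    have h1 := (hR s hs).1
    have h2 := (hR s' hs').1
    simp only [rect, mem_ofPred_eq, Prod.fst_add] at *
    omega
  have k3 : Conn full Q (t + t + 0) (a + a + 0) := dbl 0 hta (fun s hs => hB s hs s hs (Or.inl rfl))
    fun s hs s' hs' h' _ => hB s hs s' hs' (Or.inr h')
  have fin : ∀ y : V, Conn full Q (t + t + 0) y → y.2 ≤ 0 → False := fun y hy h0 =>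
    no_meet (a := -(2 * n)) (b := 2 * n) (c := 0) (d := 2 * m) k2
      (fun z hz => by
        have : 0 ≤ z.2 ∧ z.2 ≤ 2 * n := hz.elim (fun h => (hD _ h).2) fun h => (hD _ h).2
        omega)
      (by simp [σ, hv]; omega) (by simp [hv]; omega) hy (fun z hz => hz.1) (by simp [ht]; omega) h0
      fun z hz hz' => hz.elim hz'.2.1 hz'.2.2
  rcases ha with ha | ⟨a', h1, x, hx, y, hy, h2, e⟩
  · exact fin _ k3 (by simp [ha])
  have hCΦ : ∀ z ∈ C, z ∈ Φ n := fun z hz =>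
    let ⟨_, _, k⟩ := mem_cl.1 (hC ▸ hz :); k.right_mem
  have hE : ∀ x ∈ Φ n, ∀ y ∈ Φ n, x + y + (1, 1) ∉ D → x + y + (1, 1) ∈ Q := fun x hx y hy h => by
    rw [mem_Φ] at hx hy
    refine ⟨by simp only [Prod.fst_add]; omega, h, fun h' => ?_⟩
    have := hD _ h'
    simp only [σ, Prod.fst_add] at this
    omega
  have hF : ∀ x ∈ C, ∀ y ∈ C, (y = x ∨ adj x y) → x + y + (1, 1) ∈ Q := fun x hx y hy h' => by
    refine hE x (hCΦ x hx) y (hCΦ y hy) ?_
    rintro (⟨a, -, e⟩ | ⟨a, -, b, -, h1, ⟨x', hx', y', -, hy', h3, e'⟩, e⟩)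
    · simp only [adj, Prod.ext_iff, Prod.fst_add, Prod.snd_add, add_zero] at *; omega
    · rw [add_zero, e', add_left_inj] at e
      rcases h' with rfl | h'
      · simp only [adj, Prod.ext_iff, Prod.fst_add, Prod.snd_add] at *; omega
      · rcases adj_inj h' h3 e with ⟨rfl, rfl⟩ | ⟨rfl, rfl⟩
        · exact hy' hy
        · exact hy' hx
  obtain ⟨b, hb, k4⟩ := mem_cl.1 (hC ▸ hx :)
  have hG : ∀ z, Conn ζ (Φ n) b z → z ∈ C := fun z hz => hC ▸ mem_cl.2 ⟨b, hb, hz⟩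
  have k5 : Conn full Q (b + b + (1, 1)) (x + x + (1, 1)) := dbl (1, 1) k4.reach
    (fun s hs => hF s (hG s hs) s (hG s hs) (Or.inl rfl))
    fun s hs s' hs' h' _ => hF s (hG s hs) s' (hG s' hs') (Or.inr h')
  refine fin _ (((k3.tail (b := x + y + (1, 1)) ?_ trivial (hE x (hCΦ x hx) y hy
    (e ▸ hA a a' (hR a hta.right_mem).2.1 (Or.inr h1)))).tail ?_ trivial k5.right_mem).trans
    k5.symm) (by simp [show b.2 = -1 from hb])
  · rw [← e]; simp only [adj, Prod.fst_add, Prod.snd_add, add_zero] at *; omega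
  · simp only [adj, Prod.fst_add, Prod.snd_add] at *; omega

/-- a horizontal crossing of the square which is joined to `T` inside `R` -/
def XX (n : ℤ) (R T : Set V) : Set (V → Prop) :=
  {ω | ∃ u v w t : V, u.1 = 0 ∧ v.1 = n ∧ t ∈ T ∧ Conn ω (rect 0 n 0 n) u v ∧
    Conn ω (rect 0 n 0 n) u w ∧ Conn ω R t w}

lemma dep_XX {n : ℤ} {R T U : Set V} (h1 : rect 0 n 0 n ⊆ U) (h2 : R ⊆ U) :
    Dep (Ed U) (XX n R T) := fun _ _ h ⟨u, v, w, t, a, b, c, d, e, f⟩ =>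
  ⟨u, v, w, t, a, b, c, d.congr fun e he => h e (Ed_mono h1 he),
    e.congr fun e he => h e (Ed_mono h1 he), f.congr fun e he => h e (Ed_mono h2 he)⟩

lemma incr_XX (n : ℤ) (R T : Set V) : Incr (XX n R T) := fun _ _ h ⟨u, v, w, t, a, b, c, d, e, f⟩ =>
  ⟨u, v, w, t, a, b, c, d.mono' h, e.mono' h, f.mono' h⟩

lemma br_step {p : ℝ} {n m : ℤ} (hn : 0 ≤ n) (hm : n ≤ m) (C : Finset V) (hC : ∀ z ∈ C, z.2 ≠ n) :
    pr p {ω | cl (Φ n) {z | z.2 = -1} (dual ω) = C} * (pr p (TB (-n) n 0 m) / 2) ≤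
      pr p ({ω | cl (Φ n) {z | z.2 = -1} (dual ω) = C} ∩ XX n (rect (-n) n 0 m) {z | z.2 = m}) := by
  rcases eq_empty_or_nonempty {ω | cl (Φ n) {z | z.2 = -1} (dual ω) = C} with e | ⟨ω₀, h0⟩
  · rw [e, empty_inter, pr_empty, zero_mul]
  have hΦ : ((Φ n : Finset V) : Set V) = rect 0 (n - 1) (-1) n := Finite.coe_toFinset _
  obtain ⟨u, hu, v, hv, h⟩ : η n C ∈ LR 0 n 0 n := by
    by_contra h
    obtain ⟨t, ht, y, hy, k⟩ := duality hn hn h
    rw [zero_sub, ← hΦ] at k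
    refine hC t (Conn.closed (T := C) k.symm
      (h0 ▸ mem_cl.2 ⟨y, by simpa using hy, Conn.refl k.right_mem⟩ :) fun a _ b hb ha h1 h2 => ?_) ht
    by_contra h3
    exact h2 ⟨a, ha, b, hb, h3, h1, rfl⟩
  let Y : Set (V → Prop) := {ω | ∃ w, Conn (η n C) (rect 0 n 0 n) u w ∧ ∃ t : V, t.2 = m ∧
    Conn ω (insert w (rect (-n) n 0 m \ WC n C)) t w}
  have hS : rect 0 n 0 n ⊆ rect (-n) n 0 m := fun z hz => by
    simp only [rect, mem_ofPred_eq] at *; omega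
  have hσ : ∀ z ∈ rect (-n) n 0 m, σ z ∈ rect (-n) n 0 m := fun z hz => by
    simp only [rect, mem_ofPred_eq, σ] at *; omega
  have dY : Dep (Ed (rect (-n) n 0 m) \ EC n C) Y := by
    rintro ω ω' hh ⟨w, k1, t, k2, k3⟩
    refine ⟨w, k1, t, k2, k3.congr ?_⟩
    rintro _ ⟨a, ha, b, hb, h1, rfl⟩
    refine hh _ ⟨⟨a, ha.elim (fun e => e ▸ hS k1.right_mem) And.left, b,
      hb.elim (fun e => e ▸ hS k1.right_mem) And.left, h1, rfl⟩, fun e => h1.ne ?_⟩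
    rw [ha.resolve_right fun h => h.2 ⟨b, h1, e⟩,
      hb.resolve_right fun h => h.2 ⟨a, h1.symm, add_comm a b ▸ e⟩]
  have fY := (Ed_finite (rect_finite (-n) n 0 m)).sdiff (t := EC n C)
  have dQ : Dep (EC n C) {ω | cl (Φ n) {z | z.2 = -1} (dual ω) = C} := fun ω ω' hh h =>
    dep_cl (Φ n) C _ (dual ω) (dual ω') (fun _ ⟨a, ha, b, hb, h1, e⟩ =>
      not_congr (hh _ ⟨a, ha, b, hb, h1, by rw [e]⟩)) h
  have fQ : (EC n C).Finite := ((Tch_finite (Φ n) C).image (· + (1, 1))).subset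
    fun _ ⟨a, ha, b, hb, h1, e⟩ => ⟨a + b, ⟨a, ha, b, hb, h1, rfl⟩, e.symm⟩
  have h1 : TB (-n) n 0 m ⊆ Y ∪ {ω | (fun i => ω (σ i)) ∈ Y} := by
    rintro ω ⟨t, ht, y, hy, k⟩
    let M := {z | Conn (η n C) (rect 0 n 0 n) u z}
    rcases k.first_hit ({z | z ∈ M ∨ σ z ∈ M} ∪ {z | z ∈ WC n C ∨ σ z ∈ WC n C}) with
      k1 | ⟨a, ha, k1, k2⟩
    · exact (sepR hm h0 hu hv h ht k1 (fun z hz => ⟨hz.1, fun e => hz.2 (Or.inl (Or.inl e)),
        fun e => hz.2 (Or.inl (Or.inr e))⟩) (Or.inl hy)).elim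
    by_cases e1 : a ∈ M
    · exact Or.inl ⟨a, e1, t, ht, k1.mono (insert_subset_insert fun z hz =>
        ⟨hz.1, fun e => hz.2 (Or.inr (Or.inl e))⟩)⟩
    by_cases e2 : σ a ∈ M
    · refine Or.inr ⟨σ a, e2, σ t, ht, conn_σ k1 ?_⟩
      rintro z (rfl | hz)
      · exact Or.inl rfl
      · exact Or.inr ⟨hσ z hz.1, fun e => hz.2 (Or.inr (Or.inr e))⟩
    have k3 : ∀ z ∈ insert a (rect (-n) n 0 m \
        ({z | z ∈ M ∨ σ z ∈ M} ∪ {z | z ∈ WC n C ∨ σ z ∈ WC n C})),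
        z ∈ rect (-n) n 0 m ∧ z ∉ M ∧ σ z ∉ M := by
      rintro z (rfl | hz)
      · exact ⟨k2.left_mem, e1, e2⟩
      · exact ⟨hz.1, fun e => hz.2 (Or.inl (Or.inl e)), fun e => hz.2 (Or.inl (Or.inr e))⟩
    rcases ha with (ha | ha) | ha | ha
    · exact absurd ha e1
    · exact absurd ha e2
    · exact (sepR hm h0 hu hv h ht k1 k3 (Or.inr ha)).elim
    · exact (sepR hm h0 hu hv h (t := σ t) ht (conn_σ (S := {z | z ∈ rect (-n) n 0 m ∧ z ∉ M ∧
        σ z ∉ M}) k1 fun z hz => ⟨hσ z (k3 z hz).1, (k3 z hz).2.2, by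
          rw [σσ]; exact (k3 z hz).2.1⟩) (fun z hz => hz) (Or.inr ha)).elim
  have h2 := (pr_mono (p := p) h1).trans (pr_union_le _ _ _)
  rw [pr_preimage_inj (Function.LeftInverse.injective σσ) (dY.measurableSet fY)] at h2
  refine le_trans (mul_le_mul_of_nonneg_left (c := pr p Y) (by linarith) (pr_nonneg _ _)) ?_
  rw [← pr_inter_of_disjoint dQ dY fQ fY disjoint_sdiff_right]
  refine pr_mono ?_
  rintro ω ⟨hQ, w, k1, t, k2, k3⟩
  have h3 : ∀ e, η n C e → ω e := by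
    rintro _ ⟨x, hx, y, hy, hy', h4, rfl⟩
    by_contra h5
    obtain ⟨b, hb, k⟩ := mem_cl.1 (hQ ▸ hx :)
    exact hy' (hQ ▸ mem_cl.2 ⟨b, hb, k.tail h4 h5 hy⟩ :)
  exact ⟨hQ, u, v, w, t, hu, hv, k2, h.mono' h3, k1.mono' h3,
    k3.mono (insert_subset (hS k1.right_mem) sdiff_subset)⟩

lemma br_one {p : ℝ} {n m : ℤ} (hn : 0 ≤ n) (hm : n ≤ m) :
    pr p (LR 0 n 0 n) * (pr p (TB (-n) n 0 m) / 2) ≤
      pr p (XX n (rect (-n) n 0 m) {z | z.2 = m}) := by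
  classical
  have h1 : pr p (LR 0 n 0 n) ≤ ∑ C ∈ (Φ n).powerset.filter (fun C => ∀ z ∈ C, z.2 ≠ n),
      pr p {ω | cl (Φ n) {z | z.2 = -1} (dual ω) = C} := by
    refine pr_le_sum _ _ ?_
    rintro ω ⟨u, hu, v, hv, k⟩
    refine ⟨_, Finset.mem_filter.2 ⟨Finset.mem_powerset.2 (Finset.filter_subset _ _), ?_⟩, rfl⟩
    intro z hz e
    obtain ⟨b, hb, k'⟩ := mem_cl.1 hz
    exact no_cross (a := 0) (b := n) (c := 0) (d := n) k (fun z hz => hz.2.2) (le_of_eq hu)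
      (ge_of_eq hv) k'.symm (fun z hz => by have := mem_Φ.1 hz; omega) e.ge
      (by rw [show b.2 = -1 from hb]; norm_num)
  refine (mul_le_mul_of_nonneg_right h1 (by have := pr_nonneg p (TB (-n) n 0 m); positivity)).trans ?_
  rw [Finset.sum_mul]
  refine (Finset.sum_le_sum fun C hC => br_step hn hm C (Finset.mem_filter.1 hC).2).trans
    (sum_pr_le _ _ (fun C _ => MeasurableSet.inter ?_ ?_) ?_ fun _ _ => inter_subset_right)
  · exact measurable_dual ((dep_cl (Φ n) C _).measurableSet (Tch_finite _ _))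
  · exact (dep_XX (fun z hz => by simp only [rect, mem_ofPred_eq] at *; omega)
      subset_rfl).measurableSet (Ed_finite (rect_finite _ _ _ _))
  · exact fun C _ D _ h => Set.disjoint_left.mpr fun ω h1 h2 => h (h1.1.symm.trans h2.1)

lemma pr_TB_swap {p : ℝ} (a b c d : ℤ) : pr p (TB a b c d) = pr p (LR c d a b) := by
  have key : ∀ {R X Y R' X' Y' : Set V}, R.Finite → (∀ z ∈ R, z.swap ∈ R') →
      (∀ z ∈ X, z.swap ∈ X') → (∀ z ∈ Y, z.swap ∈ Y') → pr p (Cr R X Y) ≤ pr p (Cr R' Y' X') :=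
    fun h h1 h2 h3 => (pr_Cr_le (g := Prod.swap) (f := Prod.swap) (fun _ _ => adj_swap)
      (fun _ _ => rfl) Prod.swap_injective h h1 h2 h3).trans
      (pr_mono fun ω ⟨x, hx, y, hy, k⟩ => ⟨y, hy, x, hx, k.symm⟩)
  refine le_antisymm (key (rect_finite _ _ _ _) ?_ ?_ ?_) (key (rect_finite _ _ _ _) ?_ ?_ ?_) <;>
    intro z hz <;> simp only [rect, mem_ofPred_eq, Prod.fst_swap, Prod.snd_swap] at * <;> omega

lemma pr_TB_shift {p : ℝ} {a b c d a' b' c' d' : ℤ} (h1 : b - a ≤ b' - a') (h2 : c' ≤ d')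
    (h3 : d' - c' ≤ d - c) : pr p (TB a b c d) ≤ pr p (TB a' b' c' d') := by
  refine le_trans (pr_Cr_shift (a' - a, c' - c) (rect_finite _ _ _ _) ?_ ?_ ?_)
    (pr_mono (TB_mono (a := a') (b := b + (a' - a)) (c := c') (d := d + (c' - c)) le_rfl
      (by omega) le_rfl h2 (by omega))) <;>
    intro z hz <;> simp only [rect, mem_ofPred_eq, Prod.fst_add, Prod.snd_add] at * <;> omega

lemma square {n : ℤ} (hn : 0 ≤ n) : 1 / 2 ≤ pr (1 / 2) (TB 0 n 0 n) := by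
  have h1 : pr (1 / 2) (LR 0 n 0 n)ᶜ ≤ pr (1 / 2) (dual ⁻¹' TB 0 (n - 1) (0 - 1) n) :=
    pr_mono fun ω hω => duality hn hn hω
  rw [pr_dual (by norm_num) (by norm_num) (measurableSet_TB _ _ _ _),
    pr_compl (measurableSet_LR _ _ _ _), ← pr_TB_swap, show (1 - 1 / 2 : ℝ) = 1 / 2 by norm_num] at h1
  have h2 := pr_TB_shift (p := 1 / 2) (a := 0) (b := n - 1) (c := 0 - 1) (d := n) (a' := 0)
    (b' := n) (c' := 0) (d' := n) (by omega) hn (by omega)
  linarith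

lemma br_two {n m : ℤ} (hn : 0 ≤ n) (hm : n ≤ m) {c : ℝ} (hc : 0 ≤ c)
    (h : c ≤ pr (1 / 2) (TB (-n) n 0 m)) : c ^ 2 / 32 ≤ pr (1 / 2) (TB (-n) n 0 (2 * m - n)) := by
  have h1 := br_one (p := 1 / 2) hn hm
  have h2 := square hn
  have h3 : c / 4 ≤ pr (1 / 2) (XX n (rect (-n) n 0 m) {z | z.2 = m}) := by
    rw [← pr_TB_swap] at h1
    nlinarith
  have s0 : rect 0 n 0 n ⊆ rect (-n) n (n - m) m := fun z hz => by
    simp only [rect, mem_ofPred_eq] at *; omega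
  have s1 : rect (-n) n 0 m ⊆ rect (-n) n (n - m) m := fun z hz => by
    simp only [rect, mem_ofPred_eq] at *; omega
  have s2 : rect (-n) n (n - m) n ⊆ rect (-n) n (n - m) m := fun z hz => by
    simp only [rect, mem_ofPred_eq] at *; omega
  have hE := Ed_finite (rect_finite (-n) n (n - m) m)
  have d1 := dep_XX (T := {z | z.2 = m}) s0 s1
  have d2 := dep_XX (T := {z | z.2 = n - m}) s0 s2
  have d3 : Dep _ (TB 0 n 0 n) := (dep_Cr _ _ _).mono (Ed_mono s0)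
  have h4 : pr (1 / 2) (XX n (rect (-n) n 0 m) {z | z.2 = m}) ≤
      pr (1 / 2) (XX n (rect (-n) n (n - m) n) {z | z.2 = n - m}) := by
    rw [← pr_preimage_inj (f := fun z : V => (z.1, 2 * n - z.2)) (fun a b h => by
      simp only [Prod.ext_iff] at *; omega) (d1.measurableSet hE)]
    refine pr_mono ?_
    rintro ω ⟨u, v, w, t, a, b, c, d, e, f⟩
    have key : ∀ {R S : Set V} {x y : V}, (∀ z ∈ R, ((z.1, n - z.2) : V) ∈ S) →
        Conn (fun i => ω (i.1, 2 * n - i.2)) R x y → Conn ω S (x.1, n - x.2) (y.1, n - y.2) :=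
      fun h k => Conn.map (g := fun z => (z.1, n - z.2)) (f := fun z => (z.1, 2 * n - z.2))
        (fun a b h => by simp only [adj] at *; omega) (fun a b => by ext <;> simp; ring) h k
    refine ⟨(u.1, n - u.2), (v.1, n - v.2), _, _, a, b, ?_, key ?_ d, key ?_ e, key ?_ f⟩
    · simp only [mem_ofPred_eq] at *; omega
    all_goals intro z hz; simp only [rect, mem_ofPred_eq] at *; omega
  have h5 := harris (p := 1 / 2) (by norm_num) (by norm_num) hE d1 d2 (incr_XX _ _ _) (incr_XX _ _ _)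
  have h6 := harris (p := 1 / 2) (by norm_num) (by norm_num) hE (d1.inter d2) d3
    ((incr_XX _ _ _).inter (incr_XX _ _ _)) (incr_Cr _ _ _)
  refine le_trans ?_ (le_trans (h6.trans (pr_mono ?_)) (pr_TB_shift (a := -n) (b := n) (c := n - m)
    (d := m) le_rfl (by omega) (by omega)))
  · have h7 := (mul_le_mul h3 (h3.trans h4) (by positivity) (pr_nonneg _ _)).trans h5
    have := mul_le_mul h7 h2 (by norm_num) (pr_nonneg _ _)
    nlinarith
  · rintro ω ⟨⟨⟨u, v, w, t, a, b, c, d, e, f⟩, u', v', w', t', a', b', c', d', e', f'⟩,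
      x, hx, y, hy, k⟩
    obtain ⟨z, k1, k2⟩ := cross_meet (a := 0) (b := n) (c := 0) (d := n) d (fun z hz => hz.2.2)
      a.le b.ge k (fun z hz => ⟨hz.1, hz.2.1⟩) (ge_of_eq hx) (le_of_eq hy)
    obtain ⟨z', k1', k2'⟩ := cross_meet (a := 0) (b := n) (c := 0) (d := n) d' (fun z hz => hz.2.2)
      a'.le b'.ge k (fun z hz => ⟨hz.1, hz.2.1⟩) (ge_of_eq hx) (le_of_eq hy)
    exact ⟨t, c, t', c', ((f.mono s1).trans (((e.symm.trans k1).trans
      ((k2.symm.trans k2').trans (k1'.symm.trans e'))).mono s0)).trans (f'.mono s2).symm⟩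

theorem rsw : ∃ c : ℝ, 0 < c ∧ ∀ n : ℤ, 0 ≤ n → c ≤ pr (1 / 2) (TB (-n) n 0 (9 * n)) := by
  refine ⟨(((1 / 2) ^ 2 / 32) ^ 2 / 32) ^ 2 / 32, by positivity, fun n hn => ?_⟩
  have h0 := (square (n := 2 * n) (by omega)).trans (pr_TB_shift (a' := -n) (b' := n) (c' := 0)
    (d' := 2 * n) (by omega) (by omega) (by omega))
  have h1 := br_two hn (by omega) (by positivity) h0
  have h2 := br_two hn (by omega) (by positivity) h1
  have h3 := br_two hn (by omega) (by positivity) h2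
  convert h3 using 3
  ring

theorem ann_le : ∃ q : ℝ, 1 / 2 ≤ q ∧ q < 1 ∧ ∀ k : ℤ, 1 ≤ k → pr (1 / 2) (Ann k (4 * k)) ≤ q := by
  obtain ⟨c, hc, h⟩ := rsw
  refine ⟨max (1 / 2) (1 - c ^ 4), le_max_left _ _, max_lt (by norm_num) (by
    have := pow_pos hc 4; linarith), fun k hk => le_max_of_le_right ?_⟩
  have a1 : c ≤ pr (1 / 2) (LR k (4 * k) (-(4 * k)) (4 * k))ᶜ := by
    refine ((h k (by omega)).trans (pr_TB_shift (a' := k) (b' := 4 * k - 1) (c' := -(4 * k) - 1)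
      (d' := 4 * k) (by omega) (by omega) (by omega))).trans ?_
    have := pr_dual (p := 1 / 2) (by norm_num) (by norm_num)
      (measurableSet_TB k (4 * k - 1) (-(4 * k) - 1) (4 * k))
    rw [show (1 - 1 / 2 : ℝ) = 1 / 2 by norm_num] at this
    rw [← this]
    refine pr_mono ?_
    rintro ω ⟨x, hx, y, hy, k1⟩ ⟨u, hu, v, hv, k2⟩
    exact no_cross (a := k) (b := 4 * k) (c := -(4 * k)) (d := 4 * k) k2 (fun z hz => hz.2.2)
      (le_of_eq hu) (ge_of_eq hv) k1 (fun z hz => ⟨hz.1, by have := hz.2.1; omega⟩) (ge_of_eq hx)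
      (by rw [show y.2 = _ from hy]; omega)
  have sh : ∀ a b, b - a = 3 * k → c ≤ pr (1 / 2) (TB (-(4 * k)) (4 * k) a b)ᶜ := fun a b hab => by
    rw [pr_compl (measurableSet_LR _ _ _ _), ← pr_TB_swap] at a1
    have := pr_TB_shift (p := 1 / 2) (a := -(4 * k)) (b := 4 * k) (c := a) (d := b) (a' := -(4 * k))
      (b' := 4 * k) (c' := k) (d' := 4 * k) le_rfl (by omega) (by omega)
    rw [pr_compl (measurableSet_TB _ _ _ _)]
    linarith
  have a2 := sh (-(4 * k)) (-k) (by omega)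
  have a3 := sh k (4 * k) (by omega)
  have a4 : c ≤ pr (1 / 2) (LR (-(4 * k)) (-k) (-(4 * k)) (4 * k))ᶜ := by
    rwa [pr_compl (measurableSet_LR _ _ _ _), ← pr_TB_swap, ← pr_compl (measurableSet_TB _ _ _ _)]
  have hE := Ed_finite (box_finite (0 : V) (4 * k))
  have dd : ∀ a b c d X Y, -(4 * k) ≤ a → b ≤ 4 * k → -(4 * k) ≤ c → d ≤ 4 * k →
      Dep (Ed (box 0 (4 * k))) (Cr (rect a b c d) X Y) := fun a b c d X Y _ _ _ _ =>
    (dep_Cr _ _ _).mono (Ed_mono fun z hz => by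
      simp only [mem_box, rect, mem_ofPred_eq, Prod.fst_zero, Prod.snd_zero] at *; omega)
  have d1 : Dep _ (LR k (4 * k) (-(4 * k)) (4 * k)) :=
    dd _ _ _ _ _ _ (by omega) (by omega) (by omega) (by omega)
  have d2 : Dep _ (TB (-(4 * k)) (4 * k) (-(4 * k)) (-k)) :=
    dd _ _ _ _ _ _ (by omega) (by omega) (by omega) (by omega)
  have d3 : Dep _ (TB (-(4 * k)) (4 * k) k (4 * k)) :=
    dd _ _ _ _ _ _ (by omega) (by omega) (by omega) (by omega)
  have d4 : Dep _ (LR (-(4 * k)) (-k) (-(4 * k)) (4 * k)) :=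
    dd _ _ _ _ _ _ (by omega) (by omega) (by omega) (by omega)
  have f1 := harris_compl (p := 1 / 2) (by norm_num) (by norm_num) hE d1 d4 (incr_Cr _ _ _)
    (incr_Cr _ _ _)
  have f2 := harris_compl (p := 1 / 2) (by norm_num) (by norm_num) hE d2 d3 (incr_Cr _ _ _)
    (incr_Cr _ _ _)
  have f3 := harris_compl (p := 1 / 2) (by norm_num) (by norm_num) hE (d1.union d4) (d2.union d3)
    ((incr_Cr _ _ _).union (incr_Cr _ _ _)) ((incr_Cr _ _ _).union (incr_Cr _ _ _))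
  rw [pr_compl (((d1.union d4).union (d2.union d3)).measurableSet hE)] at f3
  have f4 := (mul_le_mul ((mul_le_mul a1 a4 hc.le (pr_nonneg _ _)).trans f1)
    ((mul_le_mul a2 a3 hc.le (pr_nonneg _ _)).trans f2) (by positivity) (pr_nonneg _ _)).trans f3
  refine le_trans (pr_mono ?_) (le_sub_comm.1 (le_of_eq_of_le (by ring) f4))
  rintro ω ⟨x, hx, y, hy, h⟩
  have hy' := h.right_mem.1
  have hb : ∀ {T : Set V} {a b c d : ℤ}, (∀ z ∈ box (0 : V) (4 * k), z ∈ T → z ∈ rect a b c d) →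
      (box 0 (4 * k) \ box 0 (k - 1)) ∩ T ⊆ rect a b c d := fun h z hz => h z hz.1.1 hz.2
  simp only [mem_box, mem_compl_iff, Prod.fst_zero, Prod.snd_zero] at hx hy hy'
  by_cases e1 : y.1 = 4 * k
  · obtain ⟨a, b, k1, k2, k3⟩ := cut Prod.fst fst_lip (c := k) (d := 4 * k) (by omega) h.symm
      e1.ge (by omega)
    exact Or.inl (Or.inl ⟨b, k2, a, k1, k3.symm.mono (hb fun z h1 h2 => by
      simp only [mem_box, rect, mem_ofPred_eq, Prod.fst_zero, Prod.snd_zero] at *; omega)⟩)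
  by_cases e2 : y.1 = -(4 * k)
  · obtain ⟨a, b, k1, k2, k3⟩ := cut Prod.fst fst_lip (c := -(4 * k)) (d := -k) (by omega) h
      (by omega) e2.le
    exact Or.inl (Or.inr ⟨b, k2, a, k1, k3.symm.mono (hb fun z h1 h2 => by
      simp only [mem_box, rect, mem_ofPred_eq, Prod.fst_zero, Prod.snd_zero] at *; omega)⟩)
  by_cases e3 : y.2 = 4 * k
  · obtain ⟨a, b, k1, k2, k3⟩ := cut Prod.snd snd_lip (c := k) (d := 4 * k) (by omega) h.symm
      e3.ge (by omega)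
    exact Or.inr (Or.inr ⟨a, k1, b, k2, k3.mono (hb fun z h1 h2 => by
      simp only [mem_box, rect, mem_ofPred_eq, Prod.fst_zero, Prod.snd_zero] at *; omega)⟩)
  · obtain ⟨a, b, k1, k2, k3⟩ := cut Prod.snd snd_lip (c := -(4 * k)) (d := -k) (by omega) h
      (by omega) (by omega)
    exact Or.inr (Or.inl ⟨a, k1, b, k2, k3.mono (hb fun z h1 h2 => by
      simp only [mem_box, rect, mem_ofPred_eq, Prod.fst_zero, Prod.snd_zero] at *; omega)⟩)

end Pool.Agent.Lib.MP_a739c9_pr
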