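import Pool.Agent.Lib.MP_a739c9_pr.Arms

open Set MeasureTheory SimpleGraph

namespace Pool.Agent.Lib.MP_a739c9_pr

open Pool.Agent.Lib.helper98

variable {ω : V → Prop} {R S : Set V} {u v : V}

/-- the open subgraph inside `R` -/
def OG (R : Set V) (ω : V → Prop) : SimpleGraph V where
  Adj a b := adj a b ∧ ω (a + b) ∧ a ∈ R ∧ b ∈ R
  symm := ⟨fun a b h => ⟨h.1.symm, add_comm a b ▸ h.2.1, h.2.2.2, h.2.2.1⟩⟩
  loopless := ⟨fun _ h => h.1.ne rfl⟩

lemma conn_of_walk (w : (OG R ω).Walk u v) (hu : u ∈ R) : Conn ω R u v := by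
  induction w with
  | nil => exact Conn.refl hu
  | cons h _ ih => exact (Conn.single hu h.2.2.2 h.1 h.2.1).trans (ih h.2.2.2)

lemma dist_le_card (hS : S ⊆ R) (h : Conn ω S u v) (T : Finset V)
    (hT : ∀ z, Conn ω S u z → z ∈ T) : (OG R ω).dist u v ≤ T.card := by
  classical
  obtain ⟨w, hw⟩ : ∃ w : (OG R ω).Walk u v, ∀ z ∈ w.support, z ∈ T := by
    induction h with
    | refl h => exact ⟨Walk.nil, by simpa using hT u (Conn.refl h)⟩
    | tail k0 k1 k2 k3 ih =>
      obtain ⟨w, hw⟩ := ih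
      refine ⟨w.concat ⟨k1, k2, hS k0.right_mem, hS k3⟩, fun z hz => ?_⟩
      rw [Walk.support_concat, List.mem_append, List.mem_singleton] at hz
      exact hz.elim (hw z) fun e => e ▸ hT _ (k0.tail k1 k2 k3)
  have h1 := List.toFinset_card_of_nodup w.bypass_isPath.support_nodup
  rw [Walk.length_support] at h1
  have h2 : w.bypass.support.toFinset.card ≤ T.card := Finset.card_le_card fun z hz =>
    hw z (w.support_bypass_subset_support (List.mem_toFinset.1 hz))
  have := dist_le w.bypass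
  omega

lemma AA_of {r : ℤ} (hr : 2 ≤ r) (h : Conn ω R 0 (1, 0)) (h' : ¬ Conn ω (Rg R 0 r) 0 (1, 0)) :
    ω ∈ AA R 0 r := by
  have s1 : R ∩ box 0 (r - 1) ⊆ Rg R 0 r := fun z hz =>
    ⟨by simpa using hz.1, box_mono (by omega) hz.2⟩
  have key : ∀ {x y : V}, Conn ω R x y → x ∈ box 0 (r - 1) → ¬ Conn ω (Rg R 0 r) x y →
      ∃ y ∉ box (0 : V) (r - 1), Conn ω (Rg R 0 r) x y := fun k hx k' => by
    rcases k.first_exit hx with k | ⟨a, b, k1, k2, k3, k4, k5⟩
    · exact absurd (k.mono s1) k'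
    · exact ⟨b, k4, (k1.mono s1).tail k2 k3
        ⟨by simpa using k5.left_mem, adj_mem_box k1.right_mem.2 k2⟩⟩
  rw [AA, mem_ofPred_eq, zero_add]
  exact ⟨h', key h (by simp [mem_box]; omega) h',
    key h.symm (by simp [mem_box]; omega) fun k => h' k.symm⟩

lemma theta_le : ∃ q : ℝ, 1 / 2 ≤ q ∧ q < 1 ∧ ∀ i : ℕ, θ (1 / 2) (2 * 5 ^ i) ≤ 2 * q ^ i := by
  obtain ⟨q, q0, q1, hq⟩ := ann_le
  have key : ∀ i : ℕ, pr (1 / 2) (Ann 0 (2 * 5 ^ (i + 1))) ≤ q ^ i := by
    intro i
    induction i with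
    | zero => exact pr_le_one _ _
    | succ i ih =>
      have h5 : (5 : ℤ) ≤ 5 ^ (i + 1) := le_self_pow₀ (by norm_num) i.succ_ne_zero
      have h1 := ann_mul (p := 1 / 2) (k := 2 * 5 ^ (i + 1) + 1) (n := 4 * (2 * 5 ^ (i + 1) + 1))
        (m := 2 * 5 ^ (i + 1 + 1)) (by omega) (by rw [pow_succ 5 (i + 1)]; omega)
      refine (ann_mul (n := 2 * 5 ^ (i + 1)) (by omega)
        (by rw [pow_succ 5 (i + 1)]; omega)).trans ?_
      rw [pow_succ q]
      exact mul_le_mul ih (h1.trans ((mul_le_of_le_one_right (pr_nonneg _ _) (pr_le_one _ _)).trans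
        (hq _ (by omega)))) (pr_nonneg _ _) (by positivity)
  refine ⟨q, q0, q1, fun i => ?_⟩
  cases i with
  | zero => exact (θ_le_one _ _).trans (by norm_num)
  | succ i =>
    refine ((θ_le_ann _).trans (key i)).trans ?_
    rw [pow_succ]
    nlinarith [pow_nonneg (by linarith : 0 ≤ q) i]

lemma scale {C : ℝ} {d : ℕ} (hC : 0 < C) (h : ∀ (k : ℕ) (r : ℤ), 7 * (k + 1) ≤ r →
    pr (1 / 2) (AA R 0 r) ≤ C / (k + 1) ^ d) (i : ℕ) (r : ℤ) (hr : 5 ^ i ≤ r) :
    pr (1 / 2) (AA R 0 r) ≤ (C + 1) * 25 ^ d / (5 ^ d) ^ i := by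
  rw [le_div_iff₀ (by positivity), ← pow_mul, mul_comm d, pow_mul]
  rcases lt_or_ge i 2 with e | e
  · refine mul_le_mul ((pr_le_one _ _).trans (by linarith)) (pow_le_pow_left₀ (by positivity) ?_ d)
      (by positivity) (by positivity)
    interval_cases i <;> norm_num
  · obtain ⟨i, rfl⟩ := Nat.exists_eq_add_of_le' e
    obtain ⟨k, hk⟩ := Nat.exists_eq_succ_of_ne_zero (pow_pos (by norm_num : 0 < 5) i).ne'
    have h1 : (k + 1 : ℤ) = 5 ^ i := by exact_mod_cast hk.symm
    have h2 : (k + 1 : ℝ) = 5 ^ i := by exact_mod_cast hk.symm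
    have h3 := h k r (by rw [pow_add] at hr; omega)
    rw [h2, le_div_iff₀ (by positivity)] at h3
    rw [pow_add, mul_pow, ← mul_assoc]
    exact mul_le_mul (by linarith) (by norm_num) (by positivity) (by positivity)

lemma card_bx_le (i : ℕ) : (bx (5 ^ i)).card ≤ 9 * 25 ^ i := by
  have h := card_bx (5 ^ i)
  push_cast at h
  rw [h, show 9 * 25 ^ i = (3 * 5 ^ i) ^ 2 by rw [mul_pow, ← pow_mul, mul_comm i, pow_mul]; rfl]
  exact Nat.pow_le_pow_left (by have := Nat.one_le_pow i 5 (by norm_num); omega) 2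

lemma tail {q C a : ℝ} (h0 : (0 : V) ∈ R) (hq0 : 0 ≤ q)
    (hq : ∀ i : ℕ, θ (1 / 2) (2 * 5 ^ i) ≤ 2 * q ^ i)
    (hA : ∀ (i : ℕ) (r : ℤ), 5 ^ i ≤ r → pr (1 / 2) (AA R 0 r) ≤ C / a ^ i) (j J t : ℕ)
    (ht : 0 < t) : pr (1 / 2) {ω | 9 * 25 ^ (j + 1) + t ≤ (OG R ω).dist 0 (1, 0)} ≤
      C / a ^ J + (11250 * C * ∑ i ∈ Finset.Ico j J, (25 * q / a) ^ i) / t := by
  classical
  let I := (Finset.Ico j J).sigma fun i => bx (5 ^ (i + 2)) \ bx (5 ^ (i + 1))
  let G : (Σ _ : ℕ, V) → Set (V → Prop) := fun z => AA R 0 (2 * 5 ^ z.1) ∩ Arm z.2 (2 * 5 ^ z.1)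
  let B : Set (V → Prop) := {ω | t ≤ (I.filter fun z => ω ∈ G z).card}
  have mA : ∀ r, MeasurableSet (AA R 0 r) := fun r =>
    (dep_AA _ _ _).measurableSet (Ed_finite (Rg_finite _ _ _))
  have mG : ∀ z, MeasurableSet (G z) := fun z => (mA _).inter (measurableSet_Cr (box_finite _ _) _ _)
  have mB : MeasurableSet B := by
    simp only [B, Finset.card_filter]
    exact measurableSet_le measurable_const (Finset.measurable_sum _ fun z _ =>
      Measurable.ite (mG z) measurable_const measurable_const)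
  have p5 : ∀ i : ℕ, (1 : ℤ) ≤ 5 ^ i := fun i => one_le_pow₀ (by norm_num)
  have h1 : {ω | 9 * 25 ^ (j + 1) + t ≤ (OG R ω).dist 0 (1, 0)} ⊆ AA R 0 (5 ^ (J + 1)) ∪ B := by
    intro ω hω
    obtain ⟨w, -⟩ := exists_walk_of_dist_ne_zero (G := OG R ω) (u := 0) (v := (1, 0))
      (by simp only [mem_ofPred_eq] at hω; omega)
    have c0 := conn_of_walk w h0
    refine or_iff_not_imp_left.2 fun c1 => ?_
    have c2 : Conn ω (Rg R 0 (5 ^ (J + 1))) 0 (1, 0) := not_not.1 fun c =>
      c1 (AA_of (by have := p5 J; rw [pow_succ]; omega) c0 c)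
    have ex : ∃ m : ℕ, Conn ω (Rg R 0 (5 ^ m)) 0 (1, 0) := ⟨_, c2⟩
    have c3 := dist_le_card (R := R) (fun z hz => by simpa using hz.1) (Nat.find_spec ex)
      (bx (5 ^ (j + 1)) ∪ (I.filter fun z => ω ∈ G z).image Sigma.snd) fun z hz => by
        have ex' : ∃ m : ℕ, z ∈ box 0 (5 ^ m) := ⟨_, hz.right_mem.2⟩
        have d1 := Nat.find_min' ex' hz.right_mem.2
        have d2 := Nat.find_min' ex c2
        rcases le_or_gt (Nat.find ex') (j + 1) with e | e
        · exact Finset.mem_union_left _ ((Finite.mem_toFinset _).2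
            (box_mono (pow_le_pow_right₀ (by norm_num) e) (Nat.find_spec ex')))
        obtain ⟨i, hi⟩ : ∃ i, Nat.find ex' = i + 2 := ⟨Nat.find ex' - 2, by omega⟩
        have d3 := Nat.find_min ex' (m := i + 1) (by omega)
        have d4 := Nat.find_min ex (m := i + 1) (by omega)
        have d5 := p5 i
        refine Finset.mem_union_right _ (Finset.mem_image.2 ⟨⟨i, z⟩, Finset.mem_filter.2
          ⟨Finset.mem_sigma.2 ⟨Finset.mem_Ico.2 ⟨by simp only; omega, by simp only; omega⟩,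
            Finset.mem_sdiff.2 ⟨(Finite.mem_toFinset _).2 (hi ▸ Nat.find_spec ex'),
              fun h => d3 ((Finite.mem_toFinset _).1 h)⟩⟩,
          AA_of (by simp only; omega) c0 fun c => d4 (c.mono (inter_subset_inter_right _
            (box_mono (by rw [pow_succ]; simp only; omega)))),
          Cr_mono inter_subset_right (mem_arm (by simp only; omega) hz.symm fun h => d3 ?_)⟩, rfl⟩)
        simp only [mem_box, Prod.fst_zero, Prod.snd_zero, pow_succ] at *
        omega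
    have c4 := (Finset.card_union_le _ _).trans (add_le_add (card_bx_le (j + 1))
      (Finset.card_image_le (s := I.filter fun z => ω ∈ G z) (f := Sigma.snd)))
    simp only [B, mem_ofPred_eq] at hω ⊢
    omega
  refine ((pr_mono h1).trans (pr_union_le _ _ _)).trans (add_le_add
    (hA J _ (pow_le_pow_right₀ (by norm_num) (Nat.le_succ J))) ?_)
  have h2 := pr_count (p := 1 / 2) (Finset.range t) I (fun _ => B) G (fun _ => mB) mG fun ω => by
    by_cases h : ω ∈ B
    · have h' : t ≤ (I.filter fun z => ω ∈ G z).card := h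
      simp only [h, Finset.filter_true, Finset.card_range]
      convert h'
    · simp [h]
  rw [Finset.sum_const, Finset.card_range, nsmul_eq_mul, mul_comm, Finset.sum_sigma] at h2
  rw [le_div_iff₀ (by exact_mod_cast ht), Finset.mul_sum]
  refine h2.trans (Finset.sum_le_sum fun i _ => ?_)
  have h3 := (pr_nonneg _ _).trans (hA i _ le_rfl)
  refine (Finset.sum_le_card_nsmul _ _ (C / a ^ i * (2 * q ^ i)) fun z hz => ?_).trans ?_
  · have d5 := p5 i
    change pr _ (AA R 0 (2 * 5 ^ i) ∩ Cr _ _ _) ≤ _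
    rw [pr_inter_of_disjoint (dep_AA _ _ _) (dep_Cr _ _ _) (Ed_finite (Rg_finite _ _ _))
      (Ed_finite (box_finite _ _)) (Ed_disjoint (Set.disjoint_left.2 fun y hy hy' =>
        (Finset.mem_sdiff.1 hz).2 ((Finite.mem_toFinset _).2 ?_)))]
    · exact mul_le_mul (hA i _ (by omega)) ((pr_arm_le _ _).trans (hq i))
        (pr_nonneg _ _) h3
    · have := hy.2
      simp only [mem_box, Prod.fst_zero, Prod.snd_zero, pow_succ] at *
      omega
  · have h4 : ((bx (5 ^ (i + 2)) \ bx (5 ^ (i + 1))).card : ℝ) ≤ 9 * 25 ^ (i + 2) := by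
      exact_mod_cast (Finset.card_le_card Finset.sdiff_subset).trans (card_bx_le _)
    rw [nsmul_eq_mul]
    refine (mul_le_mul_of_nonneg_right h4 (by positivity)).trans (le_of_eq ?_)
    rw [div_pow, mul_pow]
    ring

lemma integrable_of_tail {Ω : Type*} [MeasurableSpace Ω] (μ : Measure Ω) [IsProbabilityMeasure μ]
    {X : Ω → ℕ} (hX : Measurable X) {K s ρ C α₀ : ℝ} (hK : 0 < K) (hs : 1 < s) (hρ : 0 ≤ ρ)
    (h0 : 0 ≤ α₀) (h1 : s ^ α₀ * ρ < 1) (h : ∀ n : ℕ, μ.real {ω | K * s ^ n ≤ X ω} ≤ C * ρ ^ n) :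
    ∃ α, α₀ < α ∧ Integrable (fun ω => (X ω : ℝ) ^ α) μ := by
  have hc : Continuous fun α : ℝ => s ^ α * ρ :=
    (Real.continuous_const_rpow (by positivity)).mul continuous_const
  obtain ⟨α, h2, h3⟩ := (hc.continuousAt.eventually_lt continuousAt_const h1).exists_gt
  have hα : 0 ≤ α := h0.trans h2.le
  have hm : Measurable fun ω => (X ω : ℝ) := Measurable.of_discrete.comp hX
  have mA : ∀ n : ℕ, MeasurableSet {ω | K * s ^ n ≤ X ω} := fun n =>
    measurableSet_le measurable_const hm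
  refine ⟨α, h2, (hm.pow_const α).aestronglyMeasurable, ?_⟩
  rw [hasFiniteIntegral_iff_ofReal (ae_of_all _ fun ω => by positivity)]
  refine lt_of_le_of_lt (lintegral_mono (g := fun ω => ENNReal.ofReal (K ^ α) + ∑' n : ℕ,
    {ω | K * s ^ n ≤ X ω}.indicator (fun _ => ENNReal.ofReal ((K * s ^ (n + 1)) ^ α)) ω)
    fun ω => ?_) ?_
  · rcases le_total (X ω : ℝ) K with e | e
    · exact le_add_right (ENNReal.ofReal_le_ofReal (Real.rpow_le_rpow (by positivity) e hα))
    · obtain ⟨n, k1, k2⟩ := exists_nat_pow_near ((one_le_div hK).2 e) hs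
      rw [le_div_iff₀' hK] at k1
      rw [div_lt_iff₀' hK] at k2
      refine le_add_left (le_trans ?_ (ENNReal.le_tsum n))
      rw [indicator_of_mem (by exact k1)]
      exact ENNReal.ofReal_le_ofReal (Real.rpow_le_rpow (by positivity) k2.le hα)
  · rw [lintegral_add_left measurable_const, lintegral_tsum fun n =>
      (measurable_const.indicator (mA n)).aemeasurable, lintegral_const]
    refine ENNReal.add_lt_top.2 ⟨ENNReal.mul_lt_top ENNReal.ofReal_lt_top (measure_lt_top _ _),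
      lt_of_le_of_lt (ENNReal.tsum_le_tsum fun n => ?_) (((summable_geometric_of_lt_one
        (by positivity) h3).mul_left ((K * s) ^ α * C)).tsum_ofReal_lt_top)⟩
    rw [lintegral_indicator_const (mA n), ← ofReal_measureReal, ← ENNReal.ofReal_mul (by positivity)]
    refine ENNReal.ofReal_le_ofReal ((mul_le_mul_of_nonneg_left (h n) (by positivity)).trans
      (le_of_eq ?_))
    have e : (s ^ n) ^ α = (s ^ α) ^ n := by
      rw [← Real.rpow_natCast s, ← Real.rpow_mul (by positivity), mul_comm (n : ℝ),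
        Real.rpow_mul (by positivity), Real.rpow_natCast]
    rw [show K * s ^ (n + 1) = K * s * s ^ n by ring, Real.mul_rpow (x := K * s) (by positivity)
      (by positivity), e, mul_pow]
    ring

theorem full_plane (hm : Measurable fun ω => (OG univ ω).dist 0 (1, 0)) : ∃ α : ℝ, 1 / 2 < α ∧
    Integrable (fun ω => ((OG univ ω).dist 0 (1, 0) : ℝ) ^ α) (PP V (1 / 2)) := by
  obtain ⟨q, q0, q1, hq⟩ := theta_le
  obtain ⟨C, hC, h⟩ := four_arm
  have hA := scale (d := 1) hC fun k r hr => by simpa using h k r (by omega)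
  refine integrable_of_tail _ hm (K := 227) (s := 25 * q) (ρ := 1 / 5)
    (C := (C + 1) * 25 ^ 1 * 11251) (by norm_num) (by linarith) (by norm_num) (by norm_num) ?_
    fun n => ?_
  · have : (25 * q) ^ (1 / 2 : ℝ) < 5 := by
      rw [← Real.sqrt_eq_rpow, Real.sqrt_lt' (by norm_num)]; linarith
    linarith
  have h1 : (1 : ℝ) ≤ (25 * q) ^ n := one_le_pow₀ (by linarith)
  have h2 := tail (mem_univ _) (by linarith) hq hA 0 n ⌈(25 * q) ^ n⌉₊
    (Nat.ceil_pos.2 (by linarith))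
  have h3 : ∑ i ∈ Finset.Ico 0 n, (25 * q / 5 ^ 1) ^ i ≤ (5 * q) ^ n := by
    rw [← Finset.range_eq_Ico, show 25 * q / 5 ^ 1 = 5 * q by ring]
    have := mul_geom_sum (5 * q) n
    have := Finset.sum_nonneg (s := Finset.range n) fun i _ => pow_nonneg (by linarith : 0 ≤ 5 * q) i
    nlinarith
  refine le_trans (pr_mono fun ω hω => ?_) (h2.trans ?_)
  · have := Nat.ceil_lt_add_one (by linarith : 0 ≤ (25 * q) ^ n)
    simp only [mem_ofPred_eq] at hω ⊢
    exact_mod_cast (by push_cast; linarith : ((9 * 25 ^ (0 + 1) + ⌈(25 * q) ^ n⌉₊ : ℕ) : ℝ) ≤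
      (OG univ ω).dist 0 (1, 0))
  · refine (add_le_add_right (div_le_div₀ (by positivity) (mul_le_mul_of_nonneg_left h3
      (by positivity)) (by linarith) (Nat.le_ceil _)) _).trans (le_of_eq ?_)
    have : 0 < q := by linarith
    rw [mul_div_assoc (11250 * _), ← div_pow, show 5 * q / (25 * q) = 1 / 5 by field_simp; norm_num,
      pow_one (5 : ℝ), one_div, inv_pow]
    ring

theorem half_plane (hm : Measurable fun ω => (OG Hp ω).dist 0 (1, 0)) : ∃ α : ℝ, 1 < α ∧
    Integrable (fun ω => ((OG Hp ω).dist 0 (1, 0) : ℝ) ^ α) (PP V (1 / 2)) := by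
  obtain ⟨q, q0, q1, hq⟩ := theta_le
  obtain ⟨C, hC, h⟩ := three_arm
  have hA := scale hC h
  have t1 : 0 < 1 - q := by linarith
  refine integrable_of_tail _ hm (K := 226) (s := 25) (ρ := q / 25)
    (C := (C + 1) * 25 ^ 2 * (1 + 11250 / (1 - q))) (by norm_num) (by norm_num) (by positivity)
    (by norm_num) (by rw [Real.rpow_one]; linarith) fun n => ?_
  have h2 := tail (R := Hp) (le_refl (0 : ℤ)) (by linarith) hq hA n (2 * n) (25 ^ n)
    (by positivity)
  refine le_trans (pr_mono fun ω hω => ?_) (h2.trans ?_)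
  · simp only [mem_ofPred_eq] at hω ⊢
    exact_mod_cast (by push_cast; rw [pow_succ]; linarith : ((9 * 25 ^ (n + 1) + 25 ^ n : ℕ) : ℝ) ≤
      (OG Hp ω).dist 0 (1, 0))
  · have h3 := geom_sum_Ico_le_of_lt_one (m := n) (n := 2 * n) (by linarith : 0 ≤ q) q1
    have h4 : 1 / ((5 : ℝ) ^ 2) ^ (2 * n) ≤ (q / 25) ^ n := by
      rw [pow_mul, ← one_div_pow]
      exact pow_le_pow_left₀ (by positivity) (by norm_num; linarith) n
    rw [show 25 * q / 5 ^ 2 = q by ring, div_eq_mul_one_div]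
    push_cast
    refine (add_le_add (mul_le_mul_of_nonneg_left h4 (by positivity)) (div_le_div_of_nonneg_right
      (mul_le_mul_of_nonneg_left h3 (by positivity)) (by positivity))).trans (le_of_eq ?_)
    rw [div_pow]
    ring

end Pool.Agent.Lib.MP_a739c9_pr
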