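import Pool.Agent.Lib.helper98.Cross

open Set MeasureTheory

namespace Pool.Agent.Lib.MP_a739c9_pr

open Pool.Agent.Lib.helper98

variable {ω : V → Prop} {R S : Set V} {u v : V}

/-- the configuration in which all edges are open -/
def full : V → Prop := fun _ => True

lemma cut_lo (φ : V → ℤ) (hφ : ∀ a b, adj a b → φ a ≤ φ b + 1) {c : ℤ} (h : Conn ω R u v)
    (hu : c ≤ φ u) (hv : φ v ≤ c) : ∃ b, φ b = c ∧ Conn ω (R ∩ {z | c ≤ φ z}) u b := by
  rcases hu.eq_or_lt with e | e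
  · exact ⟨u, e.symm, Conn.refl ⟨h.left_mem, hu⟩⟩
  obtain ⟨a, b, k1, k2, k3, k4, k5⟩ := h.first_exit' (S := {z | c < φ z}) e (not_lt.2 hv)
  have h1 : c < φ a := k1.right_mem.2
  have h2 : φ b ≤ c := not_lt.1 k4
  have h3 := hφ a b k2
  have h4 : Conn ω (R ∩ {z | c ≤ φ z}) u a := k1.mono fun z hz => ⟨hz.1, le_of_lt (a := c) hz.2⟩
  exact ⟨b, by omega, h4.tail k2 k3 ⟨k5.left_mem, by simp only [mem_ofPred_eq]; omega⟩⟩

lemma cut (φ : V → ℤ) (hφ : ∀ a b, adj a b → φ a ≤ φ b + 1) {c d : ℤ} (hcd : c ≤ d)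
    (h : Conn ω R u v) (hu : d ≤ φ u) (hv : φ v ≤ c) :
    ∃ a b, φ a = d ∧ φ b = c ∧ Conn ω (R ∩ {z | c ≤ φ z ∧ φ z ≤ d}) a b := by
  obtain ⟨b, h1, h2⟩ := cut_lo φ hφ h (hcd.trans hu) hv
  obtain ⟨a, h3, h4⟩ := cut_lo (fun z => -φ z) (fun a b h => by have := hφ b a h.symm; omega)
    (c := -d) h2.symm (by omega) (by omega)
  exact ⟨a, b, by omega, h1, h4.symm.mono fun z hz =>
    ⟨hz.1.1, hz.1.2, by have := hz.2; simp only [mem_ofPred_eq] at this; omega⟩⟩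

lemma fst_lip (a b : V) (h : adj a b) : a.1 ≤ b.1 + 1 := by unfold adj at h; omega

lemma snd_lip (a b : V) (h : adj a b) : a.2 ≤ b.2 + 1 := by unfold adj at h; omega

lemma TB_mono {a b c d a' b' c' d' : ℤ} (h1 : a' ≤ a) (h2 : b ≤ b') (h3 : c ≤ c') (h4 : c' ≤ d')
    (h5 : d' ≤ d) : TB a b c d ⊆ TB a' b' c' d' := by
  rintro ω ⟨x, hx, y, hy, k⟩
  obtain ⟨s, t, k1, k2, k3⟩ := cut Prod.snd snd_lip h4 k (h5.trans (ge_of_eq hx))
    ((le_of_eq hy).trans h3)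
  exact ⟨s, k1, t, k2, k3.mono fun z hz => ⟨h1.trans hz.1.1, hz.1.2.1.trans h2, hz.2⟩⟩

/-- paths of the lattice and of the dual lattice, drawn in the lattice of half the mesh -/
lemma dbl (t : V) (h : Conn ω R u v) (h1 : ∀ a ∈ R, a + a + t ∈ S)
    (h2 : ∀ a ∈ R, ∀ b ∈ R, adj a b → ω (a + b) → a + b + t ∈ S) :
    Conn full S (u + u + t) (v + v + t) := by
  induction h with
  | refl h => exact Conn.refl (h1 _ h)
  | @tail a b k0 k1 k2 k3 ih =>
    refine (ih.tail ?_ trivial (h2 a k0.right_mem b k3 k1 k2)).tail ?_ trivial (h1 b k3) <;>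
      simp only [adj, Prod.fst_add, Prod.snd_add] at k1 ⊢ <;> omega

lemma seg {a b c d : ℤ} (hS : rect a b c d ⊆ S) (hu : u ∈ rect a b c d) (hv : v ∈ rect a b c d) :
    Conn full S u v :=
  ((conn_rect (fun _ _ _ _ _ => trivial) hu).symm.trans
    (conn_rect (fun _ _ _ _ _ => trivial) hv)).mono hS

lemma no_meet {P Q : Set V} {x y : V} {a b c d : ℤ} (h1 : Conn full P u v)
    (hP : ∀ z ∈ P, c ≤ z.2 ∧ z.2 ≤ d) (hu : u.1 ≤ a) (hv : b ≤ v.1) (h2 : Conn full Q x y)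
    (hQ : ∀ z ∈ Q, a ≤ z.1 ∧ z.1 ≤ b) (hx : d ≤ x.2) (hy : y.2 ≤ c) (hd : ∀ z ∈ P, z ∉ Q) :
    False := by
  obtain ⟨z, k1, k2⟩ := cross_meet h1 hP hu hv h2 hQ hx hy
  exact hd z k1.right_mem k2.right_mem

lemma Conn.closed {T : Set V} (h : Conn ω R u v) (hu : u ∈ T)
    (hT : ∀ a ∈ R, ∀ b ∈ R, a ∈ T → adj a b → ω (a + b) → b ∈ T) : v ∈ T := by
  induction h with
  | refl _ => exact hu
  | tail k0 k1 k2 k3 ih => exact hT _ k0.right_mem _ k3 ih k1 k2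

open Classical in
/-- the union of the clusters of the points of `X` inside `S` -/
noncomputable def cl (S : Finset V) (X : Set V) (ω : V → Prop) : Finset V :=
  S.filter fun z => ∃ x ∈ X, Conn ω S x z

lemma mem_cl {S : Finset V} {X : Set V} {z : V} : z ∈ cl S X ω ↔ ∃ x ∈ X, Conn ω S x z := by
  simp only [cl, Finset.mem_filter, and_iff_right_iff_imp]
  exact fun ⟨_, _, h⟩ => h.right_mem

/-- the edges of `S` which touch `C` -/
def Tch (S C : Finset V) : Set V := {m | ∃ a ∈ C, ∃ b ∈ S, adj a b ∧ m = a + b}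

lemma Tch_finite (S C : Finset V) : (Tch S C).Finite :=
  (C.finite_toSet.image2 (· + ·) S.finite_toSet).subset fun _ ⟨a, ha, b, hb, _, hm⟩ =>
    ⟨a, ha, b, hb, hm.symm⟩

lemma dep_cl (S C : Finset V) (X : Set V) : Dep (Tch S C) {ω | cl S X ω = C} := by
  intro ω ω' h hC
  rw [mem_ofPred_eq] at hC ⊢
  subst hC
  ext z
  rw [mem_cl, mem_cl]
  refine exists_congr fun x => and_congr_right fun hx => ⟨fun k => ?_, fun k => ?_⟩
  · induction k with
    | refl k => exact Conn.refl k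
    | tail _ k1 k2 k3 ih =>
      exact ih.tail k1 ((h _ ⟨_, mem_cl.mpr ⟨x, hx, ih⟩, _, k3, k1, rfl⟩).mpr k2) k3
  · exact k.reach.imp (fun t ht => Conn.right_mem ht) fun a ha b hb k1 k2 =>
      (h _ ⟨a, mem_cl.mpr ⟨x, hx, ha⟩, b, Conn.right_mem hb, k1, rfl⟩).mp k2

lemma Tch_disjoint (S C : Finset V) (R : Set V) : Disjoint (Tch S C) (Ed (R \ C)) := by
  rw [Set.disjoint_left]
  rintro m ⟨a, ha, b, -, h1, rfl⟩ ⟨c, hc, d, hd, h2, h3⟩
  rcases adj_inj h1 h2 h3 with ⟨rfl, rfl⟩ | ⟨rfl, rfl⟩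
  · exact hc.2 ha
  · exact hd.2 ha

open Classical in
lemma pr_count {ι α β : Type} {p : ℝ} (s : Finset α) (t : Finset β) (F : α → Set (ι → Prop))
    (G : β → Set (ι → Prop)) (hF : ∀ i, MeasurableSet (F i)) (hG : ∀ j, MeasurableSet (G j))
    (h : ∀ ω, (s.filter fun i => ω ∈ F i).card ≤ (t.filter fun j => ω ∈ G j).card) :
    ∑ i ∈ s, pr p (F i) ≤ ∑ j ∈ t, pr p (G j) := by
  have key : ∀ {γ : Type} (s : Finset γ) (F : γ → Set (ι → Prop)), (∀ i, MeasurableSet (F i)) →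
      Integrable (fun ω => ((s.filter fun i => ω ∈ F i).card : ℝ)) (PP ι p) ∧
      ∑ i ∈ s, pr p (F i) = ∫ ω, ((s.filter fun i => ω ∈ F i).card : ℝ) ∂PP ι p := by
    intro γ s F hF
    have h1 : ∀ i ∈ s, Integrable ((F i).indicator fun _ => (1 : ℝ)) (PP ι p) :=
      fun i _ => (integrable_const 1).indicator (hF i)
    have h2 : (fun ω => ((s.filter fun i => ω ∈ F i).card : ℝ)) =
        fun ω => ∑ i ∈ s, (F i).indicator (fun _ => (1 : ℝ)) ω := by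
      funext ω
      simp [indicator_apply]
    rw [h2, integral_finsetSum s h1]
    exact ⟨integrable_finsetSum s h1, Finset.sum_congr rfl fun i _ =>
      (integral_indicator_one (hF i)).symm⟩
  rw [(key s F hF).2, (key t G hG).2]
  exact integral_mono (key s F hF).1 (key t G hG).1 fun ω => Nat.cast_le.2 (h ω)

end Pool.Agent.Lib.MP_a739c9_pr
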